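import Pool.Agent.Helper6.O3.St

/-!
# Project O3: assembly from the modules
-/

set_option autoImplicit false

namespace Pool.Agent.Helper6.O3

open Pool.Agent.Helper99.DF (StVER StTRA StCMP StSND StPR1 StPRC StVP)

theorem asm (hSP : StSP) (hZP : StZP) (hPF : StPF) (hP2 : StP2) (hRR : StRR) (hPS : StPS) (hRT : StRT)
    (hOS : StOS) (hCV : StRT → StOS → StCV) (hGL : StRT → StGL) (hTL : StTL) (hUS : StUS)
    (hRG : StGL → StTL → StUS → StRG) (hBC : StSP → StZP → StPF → StCV → StRG → StBC)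
    (hBS : StSP → StPF → StP2 → StRR → StPS → StBS) (hAC : StOS → StAC) (hAS : StAS) (hRC : StRC)
    (hTR : StTR) (hCK : StSND → StCMP → StCK)
    (hFS : StBS → StAS → StRC → StTR → StCK → StVER → StFS)
    (hFC : StBC → StAC → StSP → StTR → StCK → StVER → StFC)
    (hPO : StPR1 → StPRC → StPO)
    (hO3 : StFS → StFC → StPO → StPR1 → StPRC → StVP → StVER → StTRA → StO3)
    (d1 : StVER) (d2 : StTRA) (d3 : StCMP) (d4 : StSND) (d5 : StPR1) (d6 : StPRC) (d7 : StVP) : StO3 :=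
  hO3 (hFS (hBS hSP hPF hP2 hRR hPS) hAS hRC hTR (hCK d4 d3) d1)
    (hFC (hBC hSP hZP hPF (hCV hRT hOS) (hRG (hGL hRT) hTL hUS)) (hAC hOS) hSP hTR (hCK d4 d3) d1)
    (hPO d5 d6) d5 d6 d7 d1 d2

end Pool.Agent.Helper6.O3
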