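import Pool.Agent.Helper6.O3.St

/-!
# Project O3: soundness of the certificates (module FS)
-/

set_option autoImplicit false

namespace Pool.Agent.Helper6.O3

open Filter Topology
open Pool.Agent.Helper99.DF (T TL sq chk Cert ver StVER StTRA StCMP StSND StPR1 StPRC StVP sq_TL sq_ge
  length_TL T_iter_cast T_map)
open Pool.Agent.Helper4.IL (Inp Sol Std InfLC LC)
open Pool.Agent.Helper90.DF (NN)

/-- From integer lists to real sequences. -/
theorem inf_of_list {M : List ℤ} {f : ℕ → ℝ} {w : ℝ} (hw : 0 < w) (h : ∀ k, (sq M k : ℝ) = w * f k)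
    (h0 : sq M 0 = 0) (hI : Inf (sq M)) : Inf f := by
  have h1 : Inf (fun k => ((sq M k : ℤ) : ℝ)) := by
    intro t k
    rw [T_iter_cast]
    exact_mod_cast hI t k
  have h2 := Inf_scale h1 (by simp [h0]) (inv_nonneg.2 hw.le) (zero_le_one)
  have h3 : (fun k => w⁻¹ * (1 : ℝ) ^ k * ((sq M k : ℤ) : ℝ)) = f := by
    funext k
    rw [h k, one_pow, mul_one, ← mul_assoc, inv_mul_cancel₀ hw.ne', one_mul]
  rw [h3] at h2
  exact h2

theorem sq_take (L : List ℤ) (m k : ℕ) : sq (L.take m) k = if k < m then sq L k else 0 := by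
  unfold Pool.Agent.Helper99.DF.sq
  rw [List.getD_eq_getElem?_getD, List.getD_eq_getElem?_getD, List.getElem?_take]
  split_ifs <;> simp

theorem T_castR (c : ℕ → ℚ) (k : ℕ) : T (fun k => ((c k : ℚ) : ℝ)) k = ((T c k : ℚ) : ℝ) := by
  have := congrFun (T_map (Rat.castHom ℝ) c) k
  simpa using this

theorem TT_castR (c : ℕ → ℚ) (k : ℕ) : T (T (fun k => ((c k : ℚ) : ℝ))) k = ((T (T c) k : ℚ) : ℝ) := by
  have h1 : T (fun k => ((c k : ℚ) : ℝ)) = fun k => ((T c k : ℚ) : ℝ) := funext (T_castR c)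
  rw [h1, T_castR]

theorem ka_castR (p q r : ℚ) (c : ℕ → ℚ) (m : ℕ) :
    ka (p : ℝ) (q : ℝ) (r : ℝ) (fun k => ((c k : ℚ) : ℝ)) m = ((ka p q r c m : ℚ) : ℝ) := by
  simp only [ka]
  push_cast
  ring

theorem dis_castR (p q r : ℚ) : dis (p : ℝ) (q : ℝ) (r : ℝ) = ((dis p q r : ℚ) : ℝ) := by
  simp only [dis]
  push_cast
  ring

/-- The list and the sequence. -/
theorem sq_sh {w : ℕ} {l : List ℤ} {a : ℕ → ℚ} (h0 : sq l 0 = 0)
    (h : ∀ k, k + 1 < l.length → (sq l (k + 1) : ℚ) = w * a k) :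
    ∀ k, k < (0 :: l).length → (sq (0 :: l) k : ℚ) = w * sh a k := by
  intro k hk
  match k, hk with
  | 0, _ => simp [Pool.Agent.Helper99.DF.sq, sh]
  | 1, _ =>
    have : sq (0 :: l) 1 = sq l 0 := by simp [Pool.Agent.Helper99.DF.sq]
    rw [this, h0]
    simp [sh]
  | k + 2, hk =>
    have e : sq (0 :: l) (k + 2) = sq l (k + 1) := by simp [Pool.Agent.Helper99.DF.sq]
    rw [e, h k (by rw [List.length_cons] at hk; omega)]
    simp [sh]

/-- The first iterate of a scaled segment. -/
theorem T_seg {L : List ℤ} {c : ℕ → ℚ} {w : ℚ} (h : ∀ k, k < L.length → (sq L k : ℚ) = w * c k) :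
    ∀ k, k + 1 < L.length → ((T (sq L) k : ℤ) : ℚ) = w ^ 2 * T c k := by
  intro k hk
  simp only [T]
  push_cast
  rw [h k (by omega), h (k - 1) (by omega), h (k + 1) hk]
  ring

theorem TT_seg {L : List ℤ} {c : ℕ → ℚ} {w : ℚ} (h : ∀ k, k < L.length → (sq L k : ℚ) = w * c k) :
    ∀ k, k + 2 < L.length → ((T (T (sq L)) k : ℤ) : ℚ) = w ^ 4 * T (T c) k := by
  intro k hk
  have e1 := T_seg h
  rw [show T (T (sq L)) k = T (sq L) k ^ 2 - T (sq L) (k - 1) * T (sq L) (k + 1) from rfl,
    show T (T c) k = T c k ^ 2 - T c (k - 1) * T c (k + 1) from rfl]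
  push_cast
  rw [e1 k (by omega), e1 (k - 1) (by omega), e1 (k + 1) (by omega)]
  ring

/-- module FS -/
theorem hFS (hBS : StBS) (hAS : StAS) (hRC : StRC) (hTR : StTR) (hCK : StCK) (hVER : StVER) : StFS := by
  intro x a hx ha w l e n m t c hver hR he3 hor
  have hv := ((hVER x a hx ha).1 w l hver).1
  have hw : 0 < w := hver.1
  have hwQ : (0 : ℚ) < w := by exact_mod_cast hw
  have hL := sq_sh hver.2.1 hv
  set L : List ℤ := 0 :: l with hLdef
  have hL0 : sq L 0 = 0 := by simp [hLdef, Pool.Agent.Helper99.DF.sq]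
  obtain ⟨⟨e3, e2⟩, e1, e0⟩ := e
  obtain ⟨hlen, hrel⟩ := hR
  simp only at he3 hrel
  have he3Q : (0 : ℚ) < e3 := by exact_mod_cast he3
  set p : ℚ := e2 / e3 with hp
  set q : ℚ := e1 / e3 with hq
  set r : ℚ := e0 / e3 with hr
  have hκ : ∀ j, n ≤ j → j < n + Bd x + 2 → ka p q r (sh a) j = 0 := by
    intro j h1 h2
    have h3 := hrel (j - n) (List.mem_range.2 (by omega))
    rw [show n + (j - n) = j by omega] at h3
    have h4 : (e3 : ℚ) * (sq L (j + 3) : ℚ) = e2 * (sq L (j + 2) : ℚ) + e1 * (sq L (j + 1) : ℚ) +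
        e0 * (sq L j : ℚ) := by exact_mod_cast h3
    rw [hL _ (by omega), hL _ (by omega), hL _ (by omega), hL _ (by omega)] at h4
    have h5 : (w : ℚ) * (e3 * ka p q r (sh a) j) = 0 := by
      simp only [ka, hp, hq, hr]
      field_simp
      linear_combination h4
    rcases mul_eq_zero.1 h5 with h6 | h6
    · exact absurd h6 hwQ.ne'
    · rcases mul_eq_zero.1 h6 with h7 | h7
      · exact absurd h7 he3Q.ne'
      · exact h7
  have hsh : ∀ j, ka p q r (sh a) (j + 2) = ka p q r a j := by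
    intro j
    simp [ka, sh]
  have hκ2 : ∀ j, n - 2 ≤ j → ka p q r a j = 0 := by
    refine hRC x a hx ha p q r (n - 2) fun j h1 h2 => ?_
    rw [← hsh]
    exact hκ _ (by omega) (by omega)
  have hall : ∀ j, n ≤ j → ka p q r (sh a) j = 0 := by
    intro j hj
    rcases lt_or_ge j 2 with h | h
    · exact hκ j hj (by omega)
    · obtain ⟨i, rfl⟩ := Nat.exists_eq_add_of_le' h
      rw [hsh]
      exact hκ2 i (by omega)
  rw [← hTR a, ← Inf_cast]
  have hz : ∀ k, k < L.length → sq L k = 0 → sh a k = 0 := by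
    intro k hk h
    have h1 := hL k hk
    rw [h] at h1
    have h2 : (w : ℚ) * sh a k = 0 := by rw [← h1]; simp
    exact (mul_eq_zero.1 h2).resolve_left hwQ.ne'
  have hnn : ∀ k, k < L.length → 0 ≤ sq L k → 0 ≤ sh a k := by
    intro k hk h
    have h1 := hL k hk
    have h2 : (0 : ℚ) ≤ w * sh a k := by rw [← h1]; exact_mod_cast h
    exact nonneg_of_mul_nonneg_right h2 hwQ
  have hTn : ∀ k, k + 1 < L.length → 0 ≤ sq (TL L) k → 0 ≤ T (sh a) k := by
    intro k hk h
    have h1 := T_seg hL k hk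
    rw [sq_TL] at h
    have h2 : (0 : ℚ) ≤ (w : ℚ) ^ 2 * T (sh a) k := by rw [← h1]; exact_mod_cast h
    exact nonneg_of_mul_nonneg_right h2 (by positivity)
  rcases hor with hB | hA
  · obtain ⟨⟨b1, b2, b3, -, b5⟩, b6, b7⟩ := hB
    simp only at b5 b7
    have b3' : 0 < sh a (n + 2) := by
      have h1 := hL (n + 2) (by omega)
      have h2 : (0 : ℚ) < w * sh a (n + 2) := by rw [← h1]; exact_mod_cast b3
      exact (mul_pos_iff_of_pos_left hwQ).1 h2
    refine hBS _ (p : ℝ) (q : ℝ) (r : ℝ) n ?_ ?_ ?_ ?_ ?_ ?_ ?_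
    · simp only [hz n (by omega) b1, Rat.cast_zero]
    · simp only [hz (n + 1) (by omega) b2, Rat.cast_zero]
    · exact_mod_cast b3'
    · intro j hj
      rw [ka_castR, hall j hj, Rat.cast_zero]
    · have : 0 < r := by
        rw [hr]
        exact div_pos (by exact_mod_cast b5) he3Q
      exact_mod_cast this
    · refine inf_of_list (w := (w : ℝ)) (by exact_mod_cast hw) ?_ ?_ (hCK.1 _ _ _ b6)
      · intro k
        rw [sq_take]
        unfold lb
        by_cases hk : k ≤ n
        · rw [if_pos (by omega), if_pos hk]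
          have := hL k (by omega)
          show ((sq L k : ℤ) : ℝ) = (w : ℝ) * ((sh a k : ℚ) : ℝ)
          exact_mod_cast this
        · rw [if_neg (by omega), if_neg hk]
          simp
      · rw [sq_take]
        simp [hL0]
    · rcases b7 with ⟨c1, c2, c3⟩ | ⟨⟨c1, c2, c3, c4⟩, c5⟩
      · left
        refine ⟨?_, ?_, ?_⟩
        · have : 0 < p := div_pos (by exact_mod_cast c1) he3Q
          exact_mod_cast this
        · have : q < 0 := div_neg_of_neg_of_pos (by exact_mod_cast c2) he3Q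
          exact_mod_cast this
        · rw [dis_castR]
          have h1 : (dz ((e3, e2), (e1, e0)) : ℚ) = e3 ^ 4 * dis p q r := by
            simp only [dz, dis, hp, hq, hr]
            push_cast
            field_simp
          have h2 : (0 : ℚ) ≤ e3 ^ 4 * dis p q r := by
            rw [← h1]
            exact_mod_cast c3
          have h3 := nonneg_of_mul_nonneg_right h2 (by positivity)
          exact_mod_cast h3
      · right
        refine ⟨m, c1, ?_, ?_, ?_⟩
        · simp only [hz m (by omega) c3, Rat.cast_zero]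
        · simp only [hz (m + 1) (by omega) c4, Rat.cast_zero]
        · intro k hk
          obtain ⟨d1, d2⟩ := c5 k (List.mem_range.2 (by omega))
          rw [T_castR]
          exact ⟨by exact_mod_cast hnn k (by omega) d1, by exact_mod_cast hTn k (by omega) d2⟩
  · obtain ⟨⟨-, b2, b3, b4, b5⟩, b6, b7, b8⟩ := hA
    simp only at b2 b3 b4 b5 b7 b8
    have b2Q : (0 : ℚ) ≤ e2 := by exact_mod_cast b2
    have b3Q : (e1 : ℚ) ≤ 0 := by exact_mod_cast b3
    have b5Q : (0 : ℚ) ≤ e2 ^ 2 + 4 * e1 * e3 := by exact_mod_cast b5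
    have hP : 0 ≤ p := div_nonneg b2Q he3Q.le
    have hQ : 0 ≤ -q := by
      rw [hq, ← neg_div]
      exact div_nonneg (by linarith) he3Q.le
    have hPQ : 4 * (-q) ≤ p ^ 2 := by
      have h1 : p ^ 2 - 4 * (-q) = (e2 ^ 2 + 4 * e1 * e3) / e3 ^ 2 := by
        rw [hp, hq]
        field_simp
        ring
      have h2 : 0 ≤ p ^ 2 - 4 * (-q) := by
        rw [h1]
        positivity
      linarith
    refine hAS _ (n + 1) (p : ℝ) (((-q : ℚ)) : ℝ) (by exact_mod_cast hP) (by exact_mod_cast hQ)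
      (by exact_mod_cast hPQ) ?_ ?_ ?_ ?_
    · intro i hi
      have h1 := hall (i - 1) (by omega)
      have hr0 : r = 0 := by rw [hr, b4]; simp
      simp only [ka, hr0, show i - 1 + 3 = i + 2 by omega, show i - 1 + 2 = i + 1 by omega,
        show i - 1 + 1 = i by omega] at h1
      have h2 : sh a (i + 2) = p * sh a (i + 1) - (-q) * sh a i := by linear_combination h1
      exact_mod_cast h2
    · have h1 : (e2 : ℚ) * sq L (n + 1) ≤ 2 * e3 * sq L (n + 2) := by exact_mod_cast b7
      rw [hL _ (by omega), hL _ (by omega)] at h1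
      have h2 : p * sh a (n + 1) ≤ 2 * sh a (n + 2) := by
        rw [hp, div_mul_eq_mul_div, div_le_iff₀ he3Q]
        have h3 : (w : ℚ) * (e2 * sh a (n + 1)) ≤ w * (2 * sh a (n + 2) * e3) := by
          calc (w : ℚ) * (e2 * sh a (n + 1)) = e2 * (w * sh a (n + 1)) := by ring
            _ ≤ 2 * e3 * (w * sh a (n + 2)) := h1
            _ = _ := by ring
        exact le_of_mul_le_mul_left h3 hwQ
      exact_mod_cast h2
    · intro k hk
      obtain ⟨d1, d2⟩ := b8 k (List.mem_range.2 (by omega))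
      rw [T_castR]
      exact ⟨by exact_mod_cast hnn k (by omega) d1, by exact_mod_cast hTn k (by omega) d2⟩
    · refine inf_of_list (w := ((w : ℝ)) ^ 4) (by positivity) ?_ ?_ (hCK.1 _ _ _ b6)
      · intro k
        rw [sq_take, sq_TL, sq_TL]
        unfold lb
        by_cases hk : k ≤ n + 2
        · rw [if_pos (by omega), if_pos (by omega), TT_castR]
          have := TT_seg hL k (by omega)
          exact_mod_cast this
        · rw [if_neg (by omega), if_neg (by omega)]
          simp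
      · rw [sq_take, sq_TL, sq_TL]
        have h1 : T (T (sq L)) 0 = 0 := by simp [T, hL0]
        rw [h1]
        simp

end Pool.Agent.Helper6.O3
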