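import Pool.Agent.Helper6.O3.St

/-!
# Project O3: the search procedure (module O3)
-/

set_option autoImplicit false

namespace Pool.Agent.Helper6.O3

open Pool.Agent.Helper99.DF (T TL sq chk Cert ver StVER StTRA StCMP StSND StPR1 StPRC StVP sq_TL_iter)
open Pool.Agent.Helper4.IL (Inp Sol Std InfLC LC)
open Pool.Agent.Helper90.DF (neg pr_neg pr_nonneg)

/-- Codes of the search. -/
abbrev Cd3 : Type := ((ℕ × List ℤ) × ((ℕ × ℕ) × Cert)) × (Co × (ℕ × ℕ))

/-- The code proves that some iterate is negative somewhere. -/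
def neg3 (q : Inp × Cd3) : Prop := neg (q.1, q.2.1)

/-- The code proves that all iterates are nonnegative. -/
def pos3 (q : Inp × Cd3) : Prop :=
  ver q.1 q.2.1.1.1 q.2.1.1.2 ∧ okR (0 :: q.2.1.1.2) q.2.2.1 q.2.2.2.1 (Bd q.1) ∧ 0 < q.2.2.1.1.1 ∧
    (okB (0 :: q.2.1.1.2) q.2.2.1 q.2.2.2.1 q.2.2.2.2 q.2.1.2.1.1 q.2.1.2.2 ∨
      okA (0 :: q.2.1.1.2) q.2.2.1 q.2.2.2.1 q.2.1.2.1.1 q.2.1.2.2)

theorem pr_neg3 (h1 : StPR1) (h3 : StVP) : PrimrecPred neg3 := by
  have h : Primrec (fun q : Inp × Cd3 => (q.1, q.2.1)) :=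
    Primrec.pair Primrec.fst (Primrec.fst.comp Primrec.snd)
  exact PrimrecPred.comp (p := neg) (pr_neg h1 h3) h

theorem pr_pos : PrimrecPred (fun z : ℤ => 0 < z) := by
  have h : Primrec (fun z : ℤ => z.toNat) := Pool.Agent.Helper4.IL.primrec_int_toNat
  exact ((Primrec.nat_lt.comp (Primrec.const 0) h)).of_eq fun z => by
    constructor <;> intro h <;> omega

theorem pr_pos3 (hPO : StPO) (h3 : StVP) : PrimrecPred pos3 := by
  obtain ⟨p1, p2, p3, p4⟩ := hPO
  have hx : Primrec (fun q : Inp × Cd3 => q.1) := Primrec.fst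
  have hA : Primrec (fun q : Inp × Cd3 => q.2.1) := Primrec.fst.comp Primrec.snd
  have hB : Primrec (fun q : Inp × Cd3 => q.2.2) := Primrec.snd.comp Primrec.snd
  have hw : Primrec (fun q : Inp × Cd3 => q.2.1.1.1) := Primrec.fst.comp (Primrec.fst.comp hA)
  have hl : Primrec (fun q : Inp × Cd3 => q.2.1.1.2) := Primrec.snd.comp (Primrec.fst.comp hA)
  have ht : Primrec (fun q : Inp × Cd3 => q.2.1.2.1.1) :=
    Primrec.fst.comp (Primrec.fst.comp (Primrec.snd.comp hA))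
  have hc : Primrec (fun q : Inp × Cd3 => q.2.1.2.2) := Primrec.snd.comp (Primrec.snd.comp hA)
  have he : Primrec (fun q : Inp × Cd3 => q.2.2.1) := Primrec.fst.comp hB
  have hn : Primrec (fun q : Inp × Cd3 => q.2.2.2.1) := Primrec.fst.comp (Primrec.snd.comp hB)
  have hm : Primrec (fun q : Inp × Cd3 => q.2.2.2.2) := Primrec.snd.comp (Primrec.snd.comp hB)
  have hL : Primrec (fun q : Inp × Cd3 => (0 : ℤ) :: q.2.1.1.2) :=
    Primrec.list_cons.comp (Primrec.const 0) hl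
  have a1 : PrimrecPred (fun q : Inp × Cd3 => ver q.1 q.2.1.1.1 q.2.1.1.2) :=
    PrimrecPred.comp (p := fun q : Inp × (ℕ × List ℤ) => ver q.1 q.2.1 q.2.2) h3.1
      (Primrec.pair hx (Primrec.pair hw hl))
  have a2 : PrimrecPred (fun q : Inp × Cd3 =>
      okR (0 :: q.2.1.1.2) q.2.2.1 q.2.2.2.1 (Bd q.1)) :=
    PrimrecPred.comp (p := fun q : List ℤ × (Co × (ℕ × ℕ)) => okR q.1 q.2.1 q.2.2.1 q.2.2.2) p1
      (Primrec.pair hL (Primrec.pair he (Primrec.pair hn (p4.comp hx))))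
  have a3 : PrimrecPred (fun q : Inp × Cd3 => 0 < q.2.2.1.1.1) :=
    PrimrecPred.comp pr_pos (Primrec.fst.comp (Primrec.fst.comp he))
  have a4 : PrimrecPred (fun q : Inp × Cd3 =>
      okB (0 :: q.2.1.1.2) q.2.2.1 q.2.2.2.1 q.2.2.2.2 q.2.1.2.1.1 q.2.1.2.2) :=
    PrimrecPred.comp (p := fun q : List ℤ × (Co × ((ℕ × ℕ) × (ℕ × Cert))) =>
      okB q.1 q.2.1 q.2.2.1.1 q.2.2.1.2 q.2.2.2.1 q.2.2.2.2) p2
      (Primrec.pair hL (Primrec.pair he (Primrec.pair (Primrec.pair hn hm) (Primrec.pair ht hc))))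
  have a5 : PrimrecPred (fun q : Inp × Cd3 =>
      okA (0 :: q.2.1.1.2) q.2.2.1 q.2.2.2.1 q.2.1.2.1.1 q.2.1.2.2) :=
    PrimrecPred.comp (p := fun q : List ℤ × (Co × (ℕ × (ℕ × Cert))) =>
      okA q.1 q.2.1 q.2.2.1 q.2.2.2.1 q.2.2.2.2) p3
      (Primrec.pair hL (Primrec.pair he (Primrec.pair hn (Primrec.pair ht hc))))
  exact PrimrecPred.and a1 (PrimrecPred.and a2 (PrimrecPred.and a3 (PrimrecPred.or a4 a5)))

/-- The answer of a code. -/
noncomputable def ans3 (x : Inp) (d : Cd3) : Option Bool := by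
  classical exact if neg3 (x, d) then some false else if pos3 (x, d) then some true else none

theorem pr_ans3 (hPO : StPO) (h1 : StPR1) (h3 : StVP) : Primrec₂ ans3 := by
  classical
  have h : Primrec (fun q : Inp × Cd3 =>
      if neg3 q then some false else if pos3 q then some true else none) :=
    Primrec.ite (pr_neg3 h1 h3) (Primrec.const _)
      (Primrec.ite (pr_pos3 hPO h3) (Primrec.const _) (Primrec.const _))
  refine h.of_eq fun q => ?_
  unfold ans3
  congr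

/-- The search. -/
noncomputable def srch3 (x : Inp) (n : ℕ) : Option Bool :=
  (Encodable.decode (α := Cd3) n).bind (ans3 x)

theorem pr_srch3 (hPO : StPO) (h1 : StPR1) (h3 : StVP) : Primrec₂ srch3 := by
  have h : Primrec (fun q : Inp × ℕ => (Encodable.decode (α := Cd3) q.2).bind (ans3 q.1)) := by
    refine Primrec.option_bind (Primrec.decode.comp Primrec.snd) ?_
    exact (pr_ans3 hPO h1 h3).comp (Primrec.fst.comp Primrec.fst) Primrec.snd
  exact h

theorem srch3_mem {x : Inp} {n : ℕ} {β : Bool} (h : β ∈ srch3 x n) : ∃ d : Cd3, β ∈ ans3 x d := by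
  unfold srch3 at h
  rw [Option.mem_def, Option.bind_eq_some_iff] at h
  obtain ⟨d, _, h⟩ := h
  exact ⟨d, h⟩

theorem mem_srch3 {x : Inp} {d : Cd3} {β : Bool} (h : β ∈ ans3 x d) :
    β ∈ srch3 x (Encodable.encode d) := by
  unfold srch3
  rw [Encodable.encodek]
  exact h

theorem ans3_true {x : Inp} {d : Cd3} (h : true ∈ ans3 x d) : pos3 (x, d) := by
  unfold ans3 at h
  split_ifs at h with h1 h2
  · simp at h
  · exact h2
  · simp at h

theorem ans3_false {x : Inp} {d : Cd3} (h : false ∈ ans3 x d) : neg3 (x, d) := by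
  unfold ans3 at h
  split_ifs at h with h1 h2
  · exact h1
  · simp at h
  · simp at h

theorem ans3_neg {x : Inp} {d : Cd3} (h : neg3 (x, d)) : false ∈ ans3 x d := by
  unfold ans3
  rw [if_pos h]
  rfl

theorem ans3_pos {x : Inp} {d : Cd3} (h : pos3 (x, d)) : ∃ β, β ∈ ans3 x d := by
  unfold ans3
  by_cases h1 : neg3 (x, d)
  · rw [if_pos h1]
    exact ⟨_, rfl⟩
  · rw [if_neg h1, if_pos h]
    exact ⟨_, rfl⟩

/-- module O3 -/
theorem hO3 (hFS : StFS) (hFC : StFC) (hPO : StPO) (h1 : StPR1) (h3 : StVP) (h4 : StVER)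
    (h5 : StTRA) : StO3 := by
  refine ⟨fun x => Nat.rfindOpt (srch3 x), Partrec.rfindOpt (pr_srch3 hPO h1 h3).to_comp, ?_⟩
  intro x hS a ha
  obtain ⟨v1, v2⟩ := h4 x a hS ha
  -- halting in the negative case
  have hneg : ¬ InfLC a → (Nat.rfindOpt (srch3 x)).Dom := by
    intro hn
    unfold InfLC at hn
    push Not at hn
    obtain ⟨i, n, hin⟩ := hn
    obtain ⟨w, l, hlen, hver, -⟩ := v2 (n + 1 + i)
    obtain ⟨e1, -⟩ := v1 w l hver
    obtain ⟨t1, -⟩ := h5 a w l hver.1 hver.2.1 e1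
    have hq : (((T^[i] (sq l)) (n + 1) : ℤ) : ℚ) < 0 := by
      rw [t1 i n (by omega)]
      have : (0 : ℚ) < (w : ℚ) ^ (2 ^ i) := by
        have := hver.1
        positivity
      exact mul_neg_of_pos_of_neg this hin
    have hq' : (T^[i] (sq l)) (n + 1) < 0 := by exact_mod_cast hq
    have hh : neg3 (x, ((((w, l), ((i, n), default)), (((0, 0), (0, 0)), (0, 0))) : Cd3)) := by
      refine ⟨hver, by show n + 1 + i < l.length; omega, ?_⟩
      show ¬ 0 ≤ sq (TL^[i] l) (n + 1)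
      rw [sq_TL_iter]
      omega
    exact Nat.rfindOpt_dom.2 ⟨_, _, mem_srch3 (ans3_neg hh)⟩
  refine ⟨?_, ?_, hneg⟩
  · intro β hβ
    obtain ⟨n, hn⟩ := Nat.rfindOpt_spec hβ
    obtain ⟨d, hd⟩ := srch3_mem hn
    obtain ⟨⟨⟨w, l⟩, ⟨t, k⟩, c⟩, e, n, m⟩ := d
    cases β with
    | false =>
      obtain ⟨hver, hlen, hlt⟩ := ans3_false hd
      simp only at hver hlen hlt
      obtain ⟨e1, -⟩ := v1 w l hver
      obtain ⟨t1, -⟩ := h5 a w l hver.1 hver.2.1 e1
      refine ⟨fun h => absurd h (by simp), fun h => ?_⟩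
      exfalso
      apply hlt
      rw [sq_TL_iter]
      have h8 := t1 t k (by omega)
      have h9 := h t k
      have h10 : (0 : ℚ) ≤ (((T^[t] (sq l)) (k + 1) : ℤ) : ℚ) := by
        rw [h8]
        positivity
      exact_mod_cast h10
    | true =>
      refine ⟨fun _ => ?_, fun _ => rfl⟩
      obtain ⟨hver, hR, he, hor⟩ := ans3_true hd
      exact hFS x a hS ha w l e n m t c hver hR he hor
  · intro hrec
    by_cases hI : InfLC a
    · obtain ⟨w, l, e, n, m, t, c, hver, hR, he, hor⟩ := hFC x a hS ha hI hrec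
      have hh : pos3 (x, ((((w, l), ((t, 0), c)), (e, (n, m))) : Cd3)) := ⟨hver, hR, he, hor⟩
      obtain ⟨β, hβ⟩ := ans3_pos hh
      exact Nat.rfindOpt_dom.2 ⟨_, _, mem_srch3 hβ⟩
    · exact hneg hI

end Pool.Agent.Helper6.O3
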