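import Pool.Agent.Helper6.O3.St

/-!
# Project O3: positivity from positive roots (module PS)
-/

set_option autoImplicit false

namespace Pool.Agent.Helper6.O3

open Pool.Agent.Helper99.DF (T)

theorem ps_one (c : ℕ → ℝ) (α β γ : ℝ) (ha : 0 < α) (hb : 0 < β) (hg : 0 < γ) (h0 : c 0 = 0)
    (h1 : c 1 = 0) (h2 : 0 ≤ c 2)
    (h : ∀ m, ka (α + β + γ) (-(α * β + β * γ + γ * α)) (α * β * γ) c m = 0) : ∀ k, 0 ≤ c k := by
  have hf : ∀ k, 0 ≤ c (k + 2) - (α + β) * c (k + 1) + α * β * c k := by
    intro k
    induction k with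
    | zero => simpa [h0, h1] using h2
    | succ k ih =>
      have h3 := h k
      simp only [ka] at h3
      have h4 : c (k + 1 + 2) - (α + β) * c (k + 1 + 1) + α * β * c (k + 1) =
          γ * (c (k + 2) - (α + β) * c (k + 1) + α * β * c k) := by
        rw [show k + 1 + 2 = k + 3 by omega, show k + 1 + 1 = k + 2 by omega]
        linear_combination h3
      rw [h4]
      positivity
  have he : ∀ k, 0 ≤ c (k + 1) - α * c k := by
    intro k
    induction k with
    | zero => simp [h0, h1]
    | succ k ih =>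
      have h3 := hf k
      have h4 := mul_nonneg hb.le ih
      rw [show k + 1 + 1 = k + 2 by omega]
      linarith
  intro k
  induction k with
  | zero => rw [h0]
  | succ k ih =>
    have h3 := he k
    have h4 := mul_nonneg ha.le ih
    linarith

/-- module PS -/
theorem hPS : StPS := by
  intro c α β γ ha hb hg h0 h1 h2 h
  refine ⟨ps_one c α β γ ha hb hg h0 h1 h2 h, ?_⟩
  have t0 : T c 0 = 0 := by simp [T, h0]
  have t1 : T c 1 = 0 := by simp [T, h0, h1]
  have t2 : T c 2 = c 2 ^ 2 := by simp [T, h1]
  refine ps_one (T c) (α * β) (β * γ) (γ * α) (by positivity) (by positivity) (by positivity) t0 t1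
    (by rw [t2]; positivity) fun m => ?_
  have e : ka (α * β + β * γ + γ * α) (-(α * β * (β * γ) + β * γ * (γ * α) + γ * α * (α * β)))
      (α * β * (β * γ) * (γ * α)) (T c) m =
      ka (-(-(α * β + β * γ + γ * α))) (-((α + β + γ) * (α * β * γ))) ((α * β * γ) ^ 2) (T c) m := by
    simp only [ka]
    ring
  rw [e]
  cases m with
  | zero =>
    have a0 := h 0
    have a1 := h 1
    simp only [ka, h0, h1] at a0 a1 ⊢
    norm_num at a0 a1 ⊢
    rw [t1, t2]
    have b0 : c 3 = (α + β + γ) * c 2 := by linear_combination a0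
    have b1 : c 4 = (α + β + γ) * c 3 - (α * β + β * γ + γ * α) * c 2 := by linear_combination a1
    simp only [T, t0]
    norm_num
    rw [b1, b0]
    simp only [T, h0, h1]
    ring
  | succ m => exact ka_T _ _ _ c m (h m) (h (m + 1)) (h (m + 2))

end Pool.Agent.Helper6.O3
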