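import Pool.Agent.Helper6.O3.St

/-!
# Project O3: the key step (module US)
-/

set_option autoImplicit false

namespace Pool.Agent.Helper6.O3

open Filter Topology
open Pool.Agent.Helper99.DF (T TL sq T_succ)

/-- module US -/
theorem hUS : StUS := by
  intro c c' k1 hk1 hc hc' heq hpos hG h1 h2
  by_contra hne
  have agree : ∀ t k, k1 + t ≤ k → (T^[t] c) k = (T^[t] c') k := by
    intro t k hk
    refine T_local t k fun j h3 h4 => ?_
    exact (heq j (by omega)).symm
  obtain ⟨δ, hδ⟩ : ∃ δ : ℕ → ℝ, δ = fun t => (T^[t] c) (k1 - 1 + t) - (T^[t] c') (k1 - 1 + t) :=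
    ⟨_, rfl⟩
  have hβ : ∀ t, 0 < (T^[t] c) (k1 + t) := fun t => hpos t _ le_rfl
  have hg : ∀ t, 0 < (T^[t] c) (k1 + t + 1) := fun t => hpos t _ (by omega)
  have e1 : ∀ t, δ (t + 1) = (T^[t + 1] c) (k1 + t) - (T^[t + 1] c') (k1 + t) := by
    intro t
    rw [hδ]
    simp only
    rw [show k1 - 1 + (t + 1) = k1 + t by omega]
  have e2 : ∀ t, δ (t + 1) = -(δ t * (T^[t] c) (k1 + t + 1)) := by
    intro t
    rw [e1, T_succ, T_succ, ← agree t (k1 + t) le_rfl, ← agree t (k1 + t + 1) (by omega), hδ]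
    simp only
    rw [show k1 - 1 + t = k1 + t - 1 by omega]
    ring
  have e3 : ∀ t, |δ (t + 1)| ≤ (T^[t] c) (k1 + t) ^ 2 := by
    intro t
    have a1 : 0 ≤ (T^[t + 1] c) (k1 + t) := hc _ _
    have a2 : 0 ≤ (T^[t + 1] c') (k1 + t) := hc' _ _
    have a3 : (T^[t + 1] c) (k1 + t) ≤ (T^[t] c) (k1 + t) ^ 2 := by
      rw [T_succ]
      have := mul_nonneg (hc t (k1 + t - 1)) (hc t (k1 + t + 1))
      linarith
    have a4 : (T^[t + 1] c') (k1 + t) ≤ (T^[t] c) (k1 + t) ^ 2 := by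
      rw [T_succ, ← agree t (k1 + t) le_rfl]
      have := mul_nonneg (hc' t (k1 + t - 1)) (hc' t (k1 + t + 1))
      linarith
    rw [e1, abs_le]
    constructor <;> linarith
  have hδ0 : ∀ t, δ t ≠ 0 := by
    intro t
    induction t with
    | zero =>
      rw [hδ]
      simp only [Function.iterate_zero, id, Nat.add_zero]
      intro h
      exact hne (by linarith)
    | succ t ih =>
      rw [e2]
      exact neg_ne_zero.2 (mul_ne_zero ih (hg t).ne')
  obtain ⟨σ, hσ⟩ : ∃ σ : ℕ → ℝ, σ = fun t => |δ (t + 1)| / (T^[t] c) (k1 + t) ^ 2 := ⟨_, rfl⟩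
  have s1 : ∀ t, σ t ≤ 1 := by
    intro t
    rw [hσ]
    exact (div_le_one (by have := hβ t; positivity)).2 (e3 t)
  have s0 : ∀ t, 0 < σ t := by
    intro t
    rw [hσ]
    have := hβ t
    have := abs_pos.2 (hδ0 (t + 1))
    positivity
  have s2 : ∀ t, σ (t + 1) = σ t * G (T^[t] c) (k1 + t + 1) := by
    intro t
    obtain ⟨y, hy⟩ : ∃ y : ℕ → ℝ, y = T^[t] c := ⟨_, rfl⟩
    have b1 : T^[t + 1] c = T y := by rw [Function.iterate_succ_apply', hy]
    have p1 : 0 < y (k1 + t) := by rw [hy]; exact hβ t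
    have p2 : 0 < y (k1 + t + 1) := by rw [hy]; exact hg t
    have p3 : 0 < y (k1 + t + 1 + 1) := by rw [hy]; exact hpos t _ (by omega)
    have p4 : 0 < T y (k1 + t + 1) := by rw [← b1]; exact hβ (t + 1)
    have c1 : |δ (t + 1 + 1)| = |δ (t + 1)| * T y (k1 + t + 1 + 1) := by
      rw [e2 (t + 1), abs_neg, abs_mul, b1, show k1 + (t + 1) + 1 = k1 + t + 1 + 1 by omega,
        abs_of_pos (a := T y (k1 + t + 1 + 1))]
      rw [← b1]
      exact hpos (t + 1) _ (by omega)
    have c2 : 1 - W y (k1 + t + 1) = y (k1 + t) * y (k1 + t + 1 + 1) / y (k1 + t + 1) ^ 2 := by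
      unfold W
      rw [eq_div_iff (by positivity), sub_mul, div_mul_cancel₀ _ (by positivity)]
      simp only [T, show k1 + t + 1 - 1 = k1 + t by omega]
      ring
    rw [hσ]
    simp only
    rw [c1, b1, ← hy, show k1 + (t + 1) = k1 + t + 1 by omega]
    unfold G
    rw [c2]
    unfold W
    field_simp
  have s3 : ∃ t0, ∀ t, t0 ≤ t → 2 ≤ G (T^[t] c) (k1 + t + 1) := by
    obtain ⟨N1, hN1⟩ := (Filter.eventually_atTop.1 (h1.eventually_ge_atTop 2))
    obtain ⟨N2, hN2⟩ := (Filter.eventually_atTop.1 (h2.eventually_ge_atTop 2))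
    refine ⟨max N1 N2, fun t ht => ?_⟩
    rcases hG t (k1 + t + 1) (by omega) with h | h
    · rw [h]
      exact hN1 _ (by have := le_max_left N1 N2; omega)
    · rw [h]
      exact hN2 _ (by have := le_max_right N1 N2; omega)
  obtain ⟨t0, ht0⟩ := s3
  have s4 : ∀ j, 2 ^ j * σ t0 ≤ σ (t0 + j) := by
    intro j
    induction j with
    | zero => simp
    | succ j ih =>
      rw [← add_assoc, s2, pow_succ]
      have := ht0 (t0 + j) (by omega)
      have h3 := s0 (t0 + j)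
      nlinarith
  obtain ⟨j, hj⟩ := pow_unbounded_of_one_lt (1 / σ t0) (one_lt_two)
  have h3 := s4 j
  have h4 := s1 (t0 + j)
  have h5 := s0 t0
  rw [div_lt_iff₀ h5] at hj
  linarith

end Pool.Agent.Helper6.O3
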