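import Pool.Agent.Helper4.DF.M_GR
import Pool.Agent.Helper4.DF.M_UL
import Pool.Agent.Helper6.DF.M_SND
import Pool.Agent.Helper9.DF.M_A1
import Pool.Agent.Helper9.DF.M_LAM
import Pool.Agent.Helper9.DF.M_PR2
import Pool.Agent.Helper13.DF.M_SU
import Pool.Agent.Helper15.DF.M_A4
import Pool.Agent.Helper15.DF.M_COD
import Pool.Agent.Helper16.DF.M_VB
import Pool.Agent.Helper16.DF.M_PR3
import Pool.Agent.Helper17.DF.M_REL
import Pool.Agent.Helper17.DF.M_BOX
import Pool.Agent.Helper28.DF.M_A2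
import Pool.Agent.Helper28.DF.M_BAS
import Pool.Agent.Helper28.DF.M_PR7
import Pool.Agent.Helper29.DF.M_A6
import Pool.Agent.Helper29.DF.M_PRC
import Pool.Agent.Helper38.DF.M_SI
import Pool.Agent.Helper42.DF.M_PR8
import Pool.Agent.Helper42.DF.M_TRA
import Pool.Agent.Helper51.DF.M_SO
import Pool.Agent.Helper51.DF.M_SM
import Pool.Agent.Helper54.DF.M_CMP
import Pool.Agent.Helper54.DF.M_SH
import Pool.Agent.Helper57.DF.M_ALG
import Pool.Agent.Helper60.DF.M_DOM
import Pool.Agent.Helper67.DF.M_CNT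
import Pool.Agent.Helper71.DF.M_PR9
import Pool.Agent.Helper72.DF.M_A3
import Pool.Agent.Helper77.DF.M_AE1
import Pool.Agent.Helper77.DF.M_AE2
import Pool.Agent.Helper77.DF.M_ALF
import Pool.Agent.Helper77.DF.M_PR4
import Pool.Agent.Helper77.DF.M_PR5
import Pool.Agent.Helper77.DF.M_PR6
import Pool.Agent.Helper78.DF.M_AE4
import Pool.Agent.Helper79.DF.M_AN
import Pool.Agent.Helper79.DF.M_ST
import Pool.Agent.Helper84.DF.M_AE3
import Pool.Agent.Helper84.DF.M_PR1
import Pool.Agent.Helper99.DF.M_SOL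
import Pool.Agent.Helper87.DF.M_EXP
import Pool.Agent.Helper87.DF.M_LIN
import Pool.Agent.Helper87.DF.M_SYM
import Pool.Agent.Helper92.DF.M_NOE
import Pool.Agent.Helper94.DF.M_SUP
import Pool.Agent.Helper94.DF.M_VP
import Pool.Agent.Helper98.DF.M_A5
import Pool.Agent.Helper99.DF.M_IDE
import Pool.Agent.Helper99.DF.M_SA
import Pool.Agent.Helper99.DF.M_VER
import Pool.Agent.Helper15.O3.M_RT
import Pool.Agent.Helper18.O3.M_RG
import Pool.Agent.Helper2.O3.M_CV
import Pool.Agent.Helper2.O3.M_SP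
import Pool.Agent.Helper26.O3.M_BS
import Pool.Agent.Helper29.O3.M_AS
import Pool.Agent.Helper38.O3.M_CK
import Pool.Agent.Helper4.O3.M_GL
import Pool.Agent.Helper47.O3.M_P2
import Pool.Agent.Helper51.O3.M_FC
import Pool.Agent.Helper6.O3.M_FS
import Pool.Agent.Helper6.O3.M_O3
import Pool.Agent.Helper6.O3.M_US
import Pool.Agent.Helper60.O3.M_AC
import Pool.Agent.Helper62.O3.M_TR
import Pool.Agent.Helper64.O3.M_PO
import Pool.Agent.Helper72.O3.M_OS
import Pool.Agent.Helper78.O3.M_BC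
import Pool.Agent.Helper79.O3.M_RC
import Pool.Agent.Helper80.O3.M_ZP
import Pool.Agent.Helper84.O3.M_PF
import Pool.Agent.Helper91.O3.M_TL
import Pool.Agent.Helper98.O3.M_RR
import Pool.Agent.Helper6.O3.M_PS
import Pool.Agent.Helper6.O3.Asm

/-!
# Project O3: assembly
-/

set_option autoImplicit false

namespace Pool.Agent.Helper6.O3

open Pool.Agent.Helper99.DF

/-- The facts of project DF that are used. -/
theorem df_facts : StVER ∧ StTRA ∧ StCMP ∧ StSND ∧ StPR1 ∧ StPRC ∧ StVP := by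
  have vb := Pool.Agent.Helper16.DF.hVB
  have a1 := Pool.Agent.Helper9.DF.hA1 vb
  have a2 := Pool.Agent.Helper28.DF.hA2 a1
  have gr := Pool.Agent.Helper4.DF.hGR
  have a3 := Pool.Agent.Helper72.DF.hA3
  have a4 := Pool.Agent.Helper15.DF.hA4 gr
  have a5 := Pool.Agent.Helper98.DF.hA5 gr
  have a6 := Pool.Agent.Helper29.DF.hA6 gr
  have an := Pool.Agent.Helper79.DF.hAN gr a2 a3 a4 a5 a6
  have alg := Pool.Agent.Helper57.DF.hALG
  have alf := Pool.Agent.Helper77.DF.hALF alg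
  have ae1 := Pool.Agent.Helper77.DF.hAE1
  have ae2 := Pool.Agent.Helper77.DF.hAE2
  have ae3 := Pool.Agent.Helper84.DF.hAE3
  have ae4 := Pool.Agent.Helper78.DF.hAE4
  have lam := Pool.Agent.Helper9.DF.hLAM
  have sol := hSOL lam ae1
  have exp := Pool.Agent.Helper87.DF.hEXP gr ae1 ae2 ae3 ae4 sol
  have bas := Pool.Agent.Helper28.DF.hBAS
  have cnt := Pool.Agent.Helper67.DF.hCNT
  have lin := Pool.Agent.Helper87.DF.hLIN
  have rel := Pool.Agent.Helper17.DF.hREL alf exp ae1 cnt lin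
  have ul := Pool.Agent.Helper4.DF.hUL
  have dom := Pool.Agent.Helper60.DF.hDOM
  have sym := Pool.Agent.Helper87.DF.hSYM an bas rel dom ul
  have box := Pool.Agent.Helper17.DF.hBOX
  have noe := Pool.Agent.Helper92.DF.hNOE
  have cod := Pool.Agent.Helper15.DF.hCOD
  have ide := hIDE noe cod
  have sup := Pool.Agent.Helper94.DF.hSUP
  have cmp := Pool.Agent.Helper54.DF.hCMP sup sym box ide
  have si := Pool.Agent.Helper38.DF.hSI
  have st := Pool.Agent.Helper79.DF.hST si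
  have sa := hSA
  have su := Pool.Agent.Helper13.DF.hSU sa
  have so := Pool.Agent.Helper51.DF.hSO sa su
  have sm := Pool.Agent.Helper51.DF.SM.hSM su
  have sh := Pool.Agent.Helper54.DF.hSH
  have snd := Pool.Agent.Helper6.DF.hSND sa so sm sh st
  have p1 := Pool.Agent.Helper84.DF.hPR1
  have p2 := Pool.Agent.Helper9.DF.hPR2
  have p3 := Pool.Agent.Helper16.DF.hPR3 p2
  have p4 := Pool.Agent.Helper77.DF.hPR4
  have p5 := Pool.Agent.Helper77.DF.hPR5
  have p6 := Pool.Agent.Helper77.DF.hPR6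
  have p7 := Pool.Agent.Helper28.DF.hPR7
  have p8 := Pool.Agent.Helper42.DF.hPR8 p1 p2 p3
  have p9 := Pool.Agent.Helper71.DF.hPR9 p1 p3 p4
  have prc := Pool.Agent.Helper29.DF.hPRC p5 p6 p7 p8 p9
  have vp := Pool.Agent.Helper94.DF.hVP
  have ver := hVER
  have tra := Pool.Agent.Helper42.DF.hTRA
  exact ⟨ver, tra, cmp, snd, p1, prc, vp⟩

/-- THE THEOREM. -/
theorem o3_all : StO3 := by
  obtain ⟨ver, tra, cmp, snd, p1, prc, vp⟩ := df_facts
  exact asm Pool.Agent.Helper2.O3.hSP Pool.Agent.Helper80.O3.hZP Pool.Agent.Helper84.O3.hPF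
    Pool.Agent.Helper47.O3.hP2 Pool.Agent.Helper98.O3.hRR hPS
    Pool.Agent.Helper15.O3.hRT Pool.Agent.Helper72.O3.hOS Pool.Agent.Helper2.O3.hCV
    Pool.Agent.Helper4.O3.hGL Pool.Agent.Helper91.O3.hTL hUS Pool.Agent.Helper18.O3.hRG
    Pool.Agent.Helper78.O3.hBC Pool.Agent.Helper26.O3.hBS Pool.Agent.Helper60.O3.hAC
    Pool.Agent.Helper29.O3.hAS Pool.Agent.Helper79.O3.hRC Pool.Agent.Helper62.O3.hTR
    Pool.Agent.Helper38.O3.hCK hFS Pool.Agent.Helper51.O3.hFC Pool.Agent.Helper64.O3.hPO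
    (fun a b c d _ f g h => hO3 a b c d f g h) ver tra cmp snd p1 prc vp

end Pool.Agent.Helper6.O3
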