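import Pool.Agent.Helper6.O3.St

/-!
# Project O3, part 2: the classification over the reals (statements, with complete proofs)

THEOREM: a real sequence which satisfies from some point on a recurrence of order three, with nonzero 3 x 3
Toeplitz minors, is infinitely log-concave iff it consists of an infinitely log-concave finite block, two
zeros and `A h_n (α, β, γ)` with `A, α, β, γ > 0`, or `A α^n sin((n+1)π/P) sin((n+2)π/P)`, `P ≥ 3`.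
-/

set_option autoImplicit false

namespace Pool.Agent.Helper6.O3

open Filter Topology
open Pool.Agent.Helper99.DF (T TL sq)

/-- The log-concavity operator for real sequences (`a (-1) = 0`). -/
def LCR (b : ℕ → ℝ) (m : ℕ) : ℝ := b m ^ 2 - (if m = 0 then 0 else b (m - 1)) * b (m + 1)

/-- Infinite log-concavity. -/
def InfLCR (a : ℕ → ℝ) : Prop := ∀ i n : ℕ, 0 ≤ (LCR^[i] a) n

/-- The complete homogeneous polynomial of degree `n` in three variables. -/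
noncomputable def hh (α β γ : ℝ) (n : ℕ) : ℝ :=
  ∑ i ∈ Finset.range (n + 1), ∑ j ∈ Finset.range (n + 1 - i), α ^ i * β ^ j * γ ^ (n - i - j)

/-- The shifted sequence. -/
def shR (a : ℕ → ℝ) (k : ℕ) : ℝ := if k < 2 then 0 else a (k - 2)

/-- Transfer.  PROOF. As `hTR` in `Helper62/O3/M_TR.lean`, over `ℝ`. -/
def StTRR : Prop := ∀ a : ℕ → ℝ, Inf (shR a) ↔ InfLCR a

/-- The sequence of three roots.  PROOF. (1) `hh` satisfies `hh 0 = 1`, `hh 1 = α + β + γ`,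
`hh 2 = s1 hh 1 - s2 hh 0` and `hh (n+3) = s1 hh (n+2) - s2 hh (n+1) + s3 hh n`: with
`g n = ∑_(j ≤ n) β^j γ^(n-j)` (`g (n+1) = β g n + γ^(n+1)`) one has `hh (n+1) = α hh n + g (n+1)`
(take out the terms with `i = 0`); eliminate.  So the sequence `k ↦ if k < 2 then 0 else A * hh (k - 2)` satisfies
`ka = 0` for all `m` (`m = 0, 1` by the values above).  (2) Conversely a sequence with `c 0 = c 1 = 0` and `ka = 0`
for all `m` is determined by `c 2`: strong induction. -/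
def StHH : Prop :=
  ∀ (α β γ : ℝ) (c : ℕ → ℝ), c 0 = 0 → c 1 = 0 →
    ((∀ m, ka (α + β + γ) (-(α * β + β * γ + γ * α)) (α * β * γ) c m = 0) ↔
      ∀ n, c (n + 2) = c 2 * hh α β γ n)

/-- The periodic case, roots.  PROOF. `f x = x^3 - p x^2 - q x - r` has a root `α > 0` (`f 0 < 0`).  Write
`p = α + P'`, `q = -(α P' + Q)`, `r = α Q`, `Q > 0`.  `e n = c (n+1) - α c n` satisfies `e (n+2) = P' e (n+1) - Q e n`,
`e 0 = 0`, `e 1 = c 2 > 0`, `e j = 0`.  If `P'^2 ≥ 4 Q` the roots `β, γ` of `x^2 - P' x + Q` are real and have the same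
sign, and `e n = c 2 ∑_(i < n) β^i γ^(n-1-i) ≠ 0` for `n ≥ 1`: contradiction.  So `P' = 2 s cos θ`, `s = √Q > 0`,
`0 < θ < π`, and `e n = c 2 s^(n-1) sin (n θ)/sin θ` (`n ≥ 1`).  `e j = 0`: `sin (j θ) = 0`.
`c (j + k) = λ c k` with `λ = c (j+2)/c 2` by the recurrence; `λ > 0` (`λ ≥ 0`; if `λ = 0` all `c (j+k) = 0`, but the
recurrence can be run backwards because `r ≠ 0`: `c 2 = 0`).  `e (j+1) = c (j+2)`, so `λ = s^j cos (j θ)`, hence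
`cos (j θ) = 1`, `λ = s^j`.  `x n = c n / s^n ≥ 0` has period `j`, `x (n+1) = (α/s) x n + C sin (n θ)` with
`C = c 2/(s^2 sin θ) > 0` (all `n ≥ 0`).  Sum over a period: `∑ sin (n θ) = 0` (`j θ ∈ 2π ℤ`, `sin (θ/2) ≠ 0`:
telescoping `2 sin (θ/2) sin (n θ) = cos ((n - 1/2) θ) - cos ((n + 1/2) θ)`), so `S = (α/s) S` with `S = ∑ x n > 0`:
`α = s`.  So `x n = C ∑_(i < n) sin (i θ) = C sin ((n-1) θ/2) sin (n θ/2)/sin (θ/2)`.  With `φ = θ/2 ∈ (0, π/2)`: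
`sin ((n-1) φ) sin (n φ) ≥ 0` for all `n`.  Let `P` be the least `n` with `n φ ≥ π`: `P ≥ 3` and
` (P-1) φ < π ≤ P φ < π + φ`, so `sin (P φ) ≥ 0` forces `P φ = π`. -/
def StEX : Prop :=
  ∀ (c : ℕ → ℝ) (p q r : ℝ) (j : ℕ), c 0 = 0 → c 1 = 0 → 0 < c 2 → (∀ m, ka p q r c m = 0) → 0 < r →
    (∀ k, 0 ≤ c k) → 3 ≤ j → c j = 0 → c (j + 1) = 0 →
    ∃ (α : ℝ) (P : ℕ) (A : ℝ), 0 < α ∧ 3 ≤ P ∧ 0 < A ∧
      ∀ k : ℕ, c k = A * α ^ k * Real.sin (((k : ℝ) - 1) * (Real.pi / P)) * Real.sin ((k : ℝ) * (Real.pi / P))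

/-- The periodic case, converse.  PROOF. `φ = π/P ≤ π/3`, `θ = 2 φ`.  The recurrence with the roots
`α, α exp (± i θ)`: `p = α (1 + 2 cos θ)`, `q = -α^2 (1 + 2 cos θ)`, `r = α^3`; use
`sin ((k-1) φ) sin (k φ) = (cos φ - cos ((2k-1) φ))/2` and `cos (x + 3 θ) - (1 + 2 cos θ) cos (x + 2 θ) +
(1 + 2 cos θ) cos (x + θ) - cos x = 0`.  Signs: `sin (x) sin (x + φ) ≥ 0` for `x = (k-1) φ`: write `k = P u + v`,
`0 ≤ v < P`: both signs change with `u`, and `sin ((v-1) φ) sin (v φ) ≥ 0` for `0 ≤ v < P` (`v = 0`: it is `0`).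
`T c k = A^2 α^(2k) sin φ sin (2 φ) sin ((k-1) φ) sin (k φ)` for `k ≥ 1` (`sin ((k-1)φ) sin (kφ) - sin ((k-2)φ)
sin ((k+1)φ) = sin φ sin 2φ`), `T c 0 = 0`.  `c P = c (P+1) = 0` (`sin π = 0`), `c 2 = A α^2 sin φ sin 2φ > 0`. -/
def StEY : Prop :=
  ∀ (c : ℕ → ℝ) (α : ℝ) (P : ℕ) (A : ℝ), 0 < α → 3 ≤ P → 0 < A →
    (∀ k : ℕ, c k = A * α ^ k * Real.sin (((k : ℝ) - 1) * (Real.pi / P)) *
      Real.sin ((k : ℝ) * (Real.pi / P))) →
    c 0 = 0 ∧ c 1 = 0 ∧ 0 < c 2 ∧ (∀ k, 0 ≤ c k) ∧ (∀ k, 0 ≤ T c k) ∧ c P = 0 ∧ c (P + 1) = 0 ∧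
      ∃ p q r : ℝ, 0 < r ∧ ∀ m, ka p q r c m = 0

/-- THE CLASSIFICATION.  PROOF. `c = shR a`, `c 0 = c 1 = 0`, `StTRR`; `ka p q r c m = 0` for `m ≥ N + 2`,
`Th c k ≠ 0` for `k ≥ N + 4` (this is the hypothesis on the minors).
(⇒) `StBC` gives `n` with `c n = c (n+1) = 0`, `c (n+2) > 0`, `ka p q r c m = 0` for `m ≥ n`, `r > 0`; put `m = n` (so
`a m = c (n+2)`; `a (m-1) = c (n+1)`, `a (m-2) = c n`); `StSP` gives `Inf (lb n c)` and `shR (block) = lb n c`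
(`c (n+1) = 0`).  Real roots: `StRR`, `StHH` for `ρ k = c (k+n)`.  Otherwise `StEX` for `ρ` and
`a (m + i) = ρ (i + 2) = A α^(i+2) sin ((i+1)π/P) sin ((i+2)π/P)`.
(⇐) `n = m`, `c n = c (n+1) = 0`; positive roots: `StHH` gives the recurrence of `ρ` with
`p, q, r` expressed by `α, β, γ`; `p > 0`, `q < 0`, `r > 0`, `dis p q r = ((α-β)(β-γ)(γ-α))^2 ≥ 0`; `StBS`.  Periodic:
`StEY` for `ρ` (`ρ k = A α^(-2) α^k sin ((k-1)π/P) sin (kπ/P)` for all `k`, also `k = 0, 1`), `StBS` with the second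
alternative, `m' = n + P`; here `0 ≤ c k ∧ 0 ≤ T c k` for `k ≤ n` comes from `Inf (lb n c)` (`T (lb n c) = lb n (T c)`, see
`T_lb` in `Helper2/O3/M_SP.lean`), for `k ≥ n` from `StEY` (` (T c) (k+n) = T ρ k` for `k ≥ 1`, ` (T c) n = 0`). -/
def StCL : Prop :=
  ∀ (a : ℕ → ℝ) (p q r : ℝ) (N : ℕ),
    (∀ n, N ≤ n → a (n + 3) = p * a (n + 2) + q * a (n + 1) + r * a n) →
    (∀ n, N ≤ n → a (n + 2) ^ 3 - 2 * (a (n + 1) * a (n + 2) * a (n + 3)) + a (n + 3) ^ 2 * a n +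
      a (n + 4) * a (n + 1) ^ 2 - a (n + 2) * a n * a (n + 4) ≠ 0) →
    (InfLCR a ↔ ∃ (m : ℕ) (A : ℝ), 0 < A ∧ (∀ k, k < m → m ≤ k + 2 → a k = 0) ∧
      InfLCR (fun k => if k < m then a k else 0) ∧
      ((∃ α β γ : ℝ, 0 < α ∧ 0 < β ∧ 0 < γ ∧ ∀ n, a (m + n) = A * hh α β γ n) ∨
        (∃ (α : ℝ) (P : ℕ), 0 < α ∧ 3 ≤ P ∧ ∀ n : ℕ, a (m + n) = A * α ^ n *
          (Real.sin (((n : ℝ) + 1) * (Real.pi / P)) * Real.sin (((n : ℝ) + 2) * (Real.pi / P))))))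

end Pool.Agent.Helper6.O3
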