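import Pool.Agent.Helper6.O3.All
import Pool.Agent.Helper6.O3.St2
import Pool.Agent.Helper18.O3.M_TRR
import Pool.Agent.Helper48.O3.M_HH
import Pool.Agent.Helper89.O3.M_EX
import Pool.Agent.Helper72.O3.M_EY
import Pool.Agent.Helper91.O3.M_CL

/-!
# Project O3, part 2: assembly of the classification
-/

set_option autoImplicit false

namespace Pool.Agent.Helper6.O3

/-- The facts of part 1 that are used. -/
theorem o3_base : StSP ∧ StBC ∧ StBS ∧ StRR := by
  have hSP := Pool.Agent.Helper2.O3.hSP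
  have hZP := Pool.Agent.Helper80.O3.hZP
  have hPF := Pool.Agent.Helper84.O3.hPF
  have hP2 := Pool.Agent.Helper47.O3.hP2
  have hRR := Pool.Agent.Helper98.O3.hRR
  have hRT := Pool.Agent.Helper15.O3.hRT
  have hOS := Pool.Agent.Helper72.O3.hOS
  have hCV := Pool.Agent.Helper2.O3.hCV hRT hOS
  have hGL := Pool.Agent.Helper4.O3.hGL hRT
  have hTL := Pool.Agent.Helper91.O3.hTL
  have hRG := Pool.Agent.Helper18.O3.hRG hGL hTL hUS
  exact ⟨hSP, Pool.Agent.Helper78.O3.hBC hSP hZP hPF hCV hRG,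
    Pool.Agent.Helper26.O3.hBS hSP hPF hP2 hRR hPS, hRR⟩

/-- THE CLASSIFICATION. -/
theorem o3_cl : StCL := by
  obtain ⟨hSP, hBC, hBS, hRR⟩ := o3_base
  exact Pool.Agent.Helper91.O3.hCL hSP hBC hBS hRR Pool.Agent.Helper18.O3.hTRR
    Pool.Agent.Helper48.O3.hHH Pool.Agent.Helper89.O3.hEX Pool.Agent.Helper72.O3.hEY

end Pool.Agent.Helper6.O3
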