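import Pool.Agent.Helper6.O3.Defs
import Pool.Agent.Helper99.DF.Ba

/-!
# Project O3: basic lemmas
-/

set_option autoImplicit false

namespace Pool.Agent.Helper6.O3

open Pool.Agent.Helper99.DF (T TL sq T_succ T_iter_map)

/-- The second iterate. -/
theorem TT_eq {R : Type} [CommRing R] (c : ℕ → R) (k : ℕ) (hk : 2 ≤ k) :
    T (T c) k = c k * Th c k := by
  obtain ⟨j, rfl⟩ := Nat.exists_eq_add_of_le' hk
  simp only [T, Th, show j + 2 - 1 = j + 1 by omega, show j + 2 - 2 = j by omega,
    show j + 1 - 1 = j by omega, show j + 2 + 1 - 1 = j + 2 by omega]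
  ring

/-- The step of the minors. -/
theorem Th_step {R : Type} [CommRing R] (p q r : R) (c : ℕ → R) (k : ℕ) (hk : 2 ≤ k)
    (h1 : ka p q r c (k - 1) = 0) (h2 : ka p q r c k = 0) :
    Th c (k + 1) = r * Th c k + ka p q r c (k - 2) * T c (k + 1) := by
  obtain ⟨j, rfl⟩ := Nat.exists_eq_add_of_le' hk
  simp only [ka, T, Th, show j + 2 - 1 = j + 1 by omega, show j + 2 - 2 = j by omega,
    show j + 1 - 1 = j by omega, show j + 2 + 1 - 1 = j + 2 by omega,
    show j + 2 + 1 - 2 = j + 1 by omega] at h1 h2 ⊢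
  have e1 : c (j + 1 + 3) = p * c (j + 1 + 2) + q * c (j + 1 + 1) + r * c (j + 1) := by
    linear_combination h1
  have e2 : c (j + 2 + 3) = p * c (j + 2 + 2) + q * c (j + 2 + 1) + r * c (j + 2) := by
    linear_combination h2
  simp only [show j + 1 + 3 = j + 4 by omega, show j + 1 + 2 = j + 3 by omega,
    show j + 1 + 1 = j + 2 by omega, show j + 2 + 3 = j + 5 by omega,
    show j + 2 + 2 = j + 4 by omega, show j + 2 + 1 = j + 3 by omega,
    show j + 3 + 1 = j + 4 by omega, show j + 3 + 2 = j + 5 by omega] at *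
  rw [e2, e1]
  ring

/-- The recurrence of `T c`. -/
theorem ka_T {R : Type} [CommRing R] (p q r : R) (c : ℕ → R) (m : ℕ)
    (h0 : ka p q r c m = 0) (h1 : ka p q r c (m + 1) = 0) (h2 : ka p q r c (m + 2) = 0) :
    ka (-q) (-(p * r)) (r ^ 2) (T c) (m + 1) = 0 := by
  simp only [ka, T] at *
  have e0 : c (m + 3) = p * c (m + 2) + q * c (m + 1) + r * c m := by
    linear_combination h0
  have e1 : c (m + 4) = p * c (m + 3) + q * c (m + 2) + r * c (m + 1) := by
    linear_combination h1
  have e2 : c (m + 5) = p * c (m + 4) + q * c (m + 3) + r * c (m + 2) := by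
    linear_combination h2
  simp only [show m + 1 + 3 = m + 4 by omega, show m + 1 + 2 = m + 3 by omega,
    show m + 1 + 1 = m + 2 by omega, show m + 4 - 1 = m + 3 by omega,
    show m + 3 - 1 = m + 2 by omega, show m + 2 - 1 = m + 1 by omega,
    show m + 1 - 1 = m by omega, show m + 4 + 1 = m + 5 by omega,
    show m + 3 + 1 = m + 4 by omega, show m + 2 + 1 = m + 3 by omega]
  rw [e2, e1, e0]
  ring

theorem T_zero0 {R : Type} [CommRing R] {c : ℕ → R} (h : c 0 = 0) (t : ℕ) : (T^[t] c) 0 = 0 := by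
  induction t with
  | zero => exact h
  | succ t ih => rw [T_succ]; simp [ih]

/-- Zero pairs stay zero pairs. -/
theorem T_pair {R : Type} [CommRing R] {c : ℕ → R} {n : ℕ} (h : c n = 0) (h' : c (n + 1) = 0) (t : ℕ) :
    (T^[t] c) n = 0 ∧ (T^[t] c) (n + 1) = 0 := by
  induction t with
  | zero => exact ⟨h, h'⟩
  | succ t ih =>
    rw [T_succ, T_succ]
    simp [ih.1, ih.2]

/-- Scaling. -/
theorem T_scale {R : Type} [CommRing R] (la mu : R) (c : ℕ → R) (h : c 0 = 0) (t : ℕ) :
    T^[t] (fun k => la * mu ^ k * c k) = fun k => la ^ (2 ^ t) * mu ^ (k * 2 ^ t) * (T^[t] c) k := by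
  induction t with
  | zero => funext k; simp
  | succ t ih =>
    rw [Function.iterate_succ_apply', ih]
    funext k
    rw [T_succ]
    rcases Nat.eq_zero_or_pos k with rfl | hk
    · simp [T, T_zero0 h t]
    · obtain ⟨j, rfl⟩ := Nat.exists_eq_add_of_le' hk
      simp only [T, show j + 1 - 1 = j by omega]
      ring

/-- Locality. -/
theorem T_local {R : Type} [CommRing R] {c c' : ℕ → R} (t : ℕ) : ∀ k,
    (∀ j, k ≤ j + t → j ≤ k + t → c j = c' j) → (T^[t] c) k = (T^[t] c') k := by
  induction t with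
  | zero => intro k h; exact h k (by omega) (by omega)
  | succ t ih =>
    intro k h
    rw [T_succ, T_succ, ih k (fun j h1 h2 => h j (by omega) (by omega)),
      ih (k - 1) (fun j h1 h2 => h j (by omega) (by omega)),
      ih (k + 1) (fun j h1 h2 => h j (by omega) (by omega))]

/-- Casting rational sequences. -/
theorem Inf_cast {c : ℕ → ℚ} : Inf (fun k => (c k : ℝ)) ↔ Inf c := by
  unfold Inf
  have h := fun t => T_iter_map (Rat.castHom ℝ) c t
  constructor
  · intro h1 t k
    have h2 := h1 t k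
    have h3 := congrFun (h t) k
    simp only [Rat.coe_castHom] at h3
    rw [h3] at h2
    exact_mod_cast h2
  · intro h1 t k
    have h2 := h1 t k
    have h3 := congrFun (h t) k
    simp only [Rat.coe_castHom] at h3
    rw [h3]
    exact_mod_cast h2

/-- Scaling preserves nonnegativity of the iterates. -/
theorem Inf_scale {c : ℕ → ℝ} {la mu : ℝ} (h : Inf c) (h0 : c 0 = 0) (h1 : 0 ≤ la) (h2 : 0 ≤ mu) :
    Inf (fun k => la * mu ^ k * c k) := by
  intro t k
  rw [T_scale la mu c h0 t]
  have := h t k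
  positivity

theorem Inf_iter {R : Type} [CommRing R] [LE R] {c : ℕ → R} (h : Inf c) (s : ℕ) : Inf (T^[s] c) := by
  intro t k
  rw [← Function.iterate_add_apply]
  exact h _ _

end Pool.Agent.Helper6.O3
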