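import Pool.Agent.Helper99.DF.Def

/-!
# Project O3: infinite log-concavity and recurrences of order three (definitions)

Sequences are functions `c : ℕ → R`; `T c k = c k ^ 2 - c (k-1) * c (k+1)` is the log-concavity operator
of project DF.  The sequence `a` of the problem is shifted by two: `sh a = (0, 0, a_0, a_1, ...)`.
-/

set_option autoImplicit false

namespace Pool.Agent.Helper6.O3

open Pool.Agent.Helper99.DF (T TL sq)

/-- All iterates are nonnegative. -/
def Inf {R : Type} [CommRing R] [LE R] (c : ℕ → R) : Prop := ∀ t k, 0 ≤ (T^[t] c) k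

/-- The 3 x 3 Toeplitz minors. -/
def Th {R : Type} [CommRing R] (c : ℕ → R) (k : ℕ) : R :=
  c k ^ 3 - 2 * (c (k - 1) * c k * c (k + 1)) + c (k + 1) ^ 2 * c (k - 2) +
    c (k + 2) * c (k - 1) ^ 2 - c k * c (k - 2) * c (k + 2)

/-- The defect of the recurrence `c (m+3) = p c (m+2) + q c (m+1) + r c m`. -/
def ka {R : Type} [CommRing R] (p q r : R) (c : ℕ → R) (m : ℕ) : R :=
  c (m + 3) - p * c (m + 2) - q * c (m + 1) - r * c m

/-- The discriminant of `x^3 - p x^2 - q x - r`. -/
def dis {R : Type} [CommRing R] (p q r : R) : R :=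
  p ^ 2 * q ^ 2 + 4 * q ^ 3 - 4 * p ^ 3 * r - 18 * p * q * r - 27 * r ^ 2

/-- The left block: the values up to `n`. -/
def lb {R : Type} [CommRing R] (n : ℕ) (c : ℕ → R) (k : ℕ) : R := if k ≤ n then c k else 0

/-- `W x k = T x k / (x k)^2`. -/
noncomputable def W (x : ℕ → ℝ) (k : ℕ) : ℝ := T x k / x k ^ 2

/-- The growth factor. -/
noncomputable def G (x : ℕ → ℝ) (k : ℕ) : ℝ := W x (k + 1) * (1 - W x k) ^ 2 / W x k ^ 2

end Pool.Agent.Helper6.O3
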