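import Pool.Agent.Helper6.O3.Ba
import Pool.Agent.Helper4.IL.Defs
import Pool.Agent.Helper90.DF.M_FIN

/-!
# Project O3 (MP_d49380_lc): statements of the modules, with complete proofs

THEOREM: infinite log-concavity is decidable for all P-recursive inputs whose sequence satisfies, from
some point on, a recurrence `a(n+3) = p a(n+2) + q a(n+1) + r a(n)` with constant coefficients.

`T c k = c k ^ 2 - c (k-1) * c (k+1)`; `Inf c`: all iterates are nonnegative; `Th c k`: the 3 x 3 Toeplitz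
minor; `ka p q r c m`: the defect of the recurrence; `dis`: the discriminant; `lb n c`: the values up to `n`.
Basic lemmas, all proved in `Ba.lean`: `TT_eq` (`T (T c) k = c k * Th c k` for `k ≥ 2`), `Th_step`, `ka_T`
(the recurrence of `T c`), `T_zero0`, `T_pair`, `T_scale`, `T_local`, `Inf_cast`, `Inf_scale`, `Inf_iter`; in
`Helper99/DF/Ba.lean`: `T_succ`, `sq_TL_iter`, `T_iter_map`, ...
-/

set_option autoImplicit false

namespace Pool.Agent.Helper6.O3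

open Filter Topology
open Pool.Agent.Helper99.DF (T TL sq chk Cert ver StVER StTRA StCMP StSND StPR1 StPRC StVP)
open Pool.Agent.Helper4.IL (Inp Sol Std InfLC LC)
open Pool.Agent.Helper90.DF (NN)

/-! ## Structure -/

/-- Splitting at a zero pair.  PROOF. `T (lb n c) = lb n (T c)` and `T (fun k => c (k+n)) = fun k => (T c) (k+n)`
when `c n = c (n+1) = 0` (at `k = n` resp. `k = 0` both sides are `0`); zero pairs stay zero pairs (`T_pair`), so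
by induction the same for all iterates. -/
def StSP : Prop :=
  ∀ (c : ℕ → ℝ) (n : ℕ), c n = 0 → c (n + 1) = 0 →
    (Inf c ↔ Inf (lb n c) ∧ Inf (fun k => c (k + n)))

/-- Zero pairs.  PROOF. If `c k = 0`, `k ≥ 1`: ` (T c) k = - c(k-1) c(k+1) ≥ 0` and both factors are `≥ 0`: one is
zero, so ` (k-1, k)` or ` (k, k+1)` is a zero pair.  If there are arbitrarily large zeros the second alternative
holds.  Otherwise the zero pairs (there is one: `n = 0`) have a last one, `n`; a zero `k ≥ n + 2` would give a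
later pair. -/
def StZP : Prop :=
  ∀ c : ℕ → ℝ, c 0 = 0 → c 1 = 0 → Inf c →
    (∃ n, c n = 0 ∧ c (n + 1) = 0 ∧ ∀ k, n + 2 ≤ k → 0 < c k) ∨
      (∀ M, ∃ n, M ≤ n ∧ c n = 0 ∧ c (n + 1) = 0)

/-- Perfect sequences.  PROOF. `Th c 2 = (c 2)^3` and `Th_step` give `Th c k = (c 2)^3 r^(k-2)` for `k ≥ 2`, so
`T (T c) k = ((c 2)^3 / r^2) r^k c k` (`TT_eq`; for `k ≤ 1` both sides are `0`). -/
def StPF : Prop :=
  ∀ (c : ℕ → ℝ) (p q r : ℝ), c 0 = 0 → c 1 = 0 → (∀ m, ka p q r c m = 0) → r ≠ 0 →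
    ∀ k, T (T c) k = c 2 ^ 3 / r ^ 2 * r ^ k * c k

/-- Period two up to scaling.  PROOF. By strong induction on `t`: `t = 0, 1` are hypotheses and
`T^[t+2] c = T^[t] (T (T c)) = T^[t] (fun k => la * mu^k * c k)` is a nonnegative multiple of ` (T^[t] c) k` by
`T_scale`. -/
def StP2 : Prop :=
  ∀ (c : ℕ → ℝ) (la mu : ℝ), c 0 = 0 → 0 ≤ la → 0 ≤ mu → (∀ k, T (T c) k = la * mu ^ k * c k) →
    (∀ k, 0 ≤ c k) → (∀ k, 0 ≤ T c k) → Inf c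

/-- Real roots.  PROOF. `f x = x^3 - p x^2 - q x - r` has a real root `α` (`f 0 = -r < 0`, `f x > 0` for large `x`), and
`f x < 0` for `x ≤ 0`, so `α > 0`.  `f x = (x - α) g x`, `g x = x^2 - (p - α) x + r/α`, and
`dis p q r = ((p - α)^2 - 4 r/α) * (g α)^2`.  If `g α ≠ 0` the discriminant of `g` is `≥ 0` and `g` has real roots
`β, γ` (roots of `f`, so positive).  If `g α = 0` then `g = (x - α)(x - γ)`. -/
def StRR : Prop :=
  ∀ p q r : ℝ, 0 < p → q < 0 → 0 < r → 0 ≤ dis p q r →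
    ∃ α β γ : ℝ, 0 < α ∧ 0 < β ∧ 0 < γ ∧ p = α + β + γ ∧ q = -(α * β + β * γ + γ * α) ∧ r = α * β * γ

/-- Positivity from positive roots.  PROOF. First part for `c`: `f k = c (k+2) - (α+β) c (k+1) + α β c k` satisfies
`f (k+1) = γ f k`, `f 0 = c 2 ≥ 0`; `e k = c (k+1) - α c k` satisfies `e (k+1) = β e k + f k`, `e 0 = 0`;
`c (k+1) = α c k + e k`: all are `≥ 0`.  Second part: `T c` has `T c 0 = T c 1 = 0`, `T c 2 = (c 2)^2 ≥ 0` and satisfies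
the recurrence with roots `α β, β γ, γ α` (`ka_T` for the index `m + 1`; the index `0` directly:
`c 3 = p c 2`, `c 4 = p c 3 + q c 2`), so the first part applies. -/
def StPS : Prop :=
  ∀ (c : ℕ → ℝ) (α β γ : ℝ), 0 < α → 0 < β → 0 < γ → c 0 = 0 → c 1 = 0 → 0 ≤ c 2 →
    (∀ m, ka (α + β + γ) (-(α * β + β * γ + γ * α)) (α * β * γ) c m = 0) →
    (∀ k, 0 ≤ c k) ∧ (∀ k, 0 ≤ T c k)

/-- Ratios.  PROOF. `ρ k = x (k+1) / x k` is positive and nonincreasing for `k ≥ k0`, so it converges to some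
`l ≥ 0`, `l ≤ ρ k`.  For `m ≥ max N k0`: `ρ (m+2) ρ (m+1) ρ m = P ρ (m+1) ρ m + Q ρ m + R`; in the limit
`l^3 = P l^2 + Q l + R`, so `l ≠ 0` because `R ≠ 0`. -/
def StRT : Prop :=
  ∀ (x : ℕ → ℝ) (P Q R : ℝ) (k0 N : ℕ), (∀ k, k0 ≤ k → 0 < x k) →
    (∀ k, k0 ≤ k → x k * x (k + 2) ≤ x (k + 1) ^ 2) → (∀ m, N ≤ m → ka P Q R x m = 0) → R ≠ 0 →
    ∃ l : ℝ, 0 < l ∧ Tendsto (fun k => x (k + 1) / x k) atTop (𝓝 l) ∧
      (∀ k, k0 ≤ k → l * x k ≤ x (k + 1)) ∧ l ^ 3 = P * l ^ 2 + Q * l + R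

/-- Oscillation.  PROOF. `t n = e (n+1) / e n > 0`, `t (n+1) = P - Q / t n`; so `P > t (n+1) > 0` and `t (n+1) < P`.
If `P^2 < 4 Q` then for `0 < t ≤ P`: `t - (P - Q/t) = (t^2 - P t + Q)/t ≥ (Q - P^2/4)/P > 0`, so `t n` would become
negative.  Last part: `t` is strictly decreasing, so it converges to a root `L ≥ 0` of `L^2 - P L + Q = 0`, `L > 0`,
`t n > L`, and `0 < t n ^2 - P t n + Q = (t n - L)(t n - (P - L))`, hence `t n > L` and `t n > P - L`: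
`2 t n > P`. -/
def StOS : Prop :=
  ∀ (e : ℕ → ℝ) (P Q : ℝ), (∀ n, 0 < e n) → 0 < Q → (∀ n, e (n + 2) = P * e (n + 1) - Q * e n) →
    4 * Q ≤ P ^ 2 ∧ 0 < P ∧
      ((∀ n, e n * e (n + 2) < e (n + 1) ^ 2) → ∀ n, P * e n ≤ 2 * e (n + 1))

/-- Perfect positive sequences have positive real roots.  PROOF. `StRT` with `x = c`, `k0 = 2` gives `l > 0` with
`l^3 = p l^2 + q l + r` and `e n = c (n+1) - l c n ≥ 0` (for `n ≥ 2`; `e 0 = 0`, `e 1 = c 2 > 0`).  With `P = p - l`,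
`Q = r / l > 0`, `l (q + l P) = - r`..., i.e. `q = -(l P + Q)`: `e (n+2) = P e (n+1) - Q e n` for all `n ≥ 0`.  If
`e n = 0` with `n ≥ 2` minimal then `e (n+1) = - Q e (n-1) < 0`: so `e n > 0` for `n ≥ 1`.  `StOS` for
`fun n => e (n+1)`: `4 Q ≤ P^2`, `P > 0`.  So `p = l + P > 0`, `q = -(l P + Q) < 0` and
`dis p q r = (P^2 - 4 Q) (l^2 - P l + Q)^2 ≥ 0`. -/
def StCV : Prop :=
  ∀ (c : ℕ → ℝ) (p q r : ℝ), c 0 = 0 → c 1 = 0 → (∀ k, 2 ≤ k → 0 < c k) → (∀ k, 2 ≤ k → 0 < T c k) →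
    (∀ m, ka p q r c m = 0) → 0 < r → 0 < p ∧ q < 0 ∧ 0 ≤ dis p q r

/-! ## Rigidity -/

/-- Growth factors.  PROOF. `D = T c`.  `D k > 0` and `c k > 0` for `k ≥ k0`; `c` is log-concave there since `D k ≥ 0`,
and `D` since `T D k = K r^k c k > 0` (for large `k`).  `StRT` for `c` (coefficients `p, q, r`) and for `D`
(coefficients `-q, -(p r), r^2`, `ka_T`) give ratio limits `l > 0`, `m > 0`.  So `W c k = D k / (c k)^2 =
1 - c(k-1) c(k+1)/(c k)^2 → 0`, `W c (k+1) / W c k = (D(k+1)/D k) (c k/c(k+1))^2 → m / l^2 > 0`, and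
`G c k = (W c (k+1)/W c k) (1 - W c k)^2 / W c k → ∞` (`W c k > 0`).  Same for `D`: `W D k = T D k / (D k)^2 → 0`,
`W D (k+1) / W D k = r (c(k+1)/c k) (D k/D(k+1))^2 → r l / m^2 > 0`. -/
def StGL : Prop :=
  ∀ (c : ℕ → ℝ) (p q r K : ℝ) (k0 : ℕ), (∀ k, k0 ≤ k → 0 < c k) → (∀ k, k0 ≤ k → 0 < T c k) →
    (∀ m, k0 ≤ m → ka p q r c m = 0) → 0 < r → 0 < K → (∀ k, k0 ≤ k → T (T c) k = K * r ^ k * c k) →
    Tendsto (G c) atTop atTop ∧ Tendsto (G (T c)) atTop atTop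

/-- The tail.  PROOF. ` (T^[t+2] c) k = (T^[t] (T (T c))) k = (T^[t] (fun k => K r^k c k)) k` for `k ≥ k1 + t` by
`T_local`, then `T_scale`.  Positivity by two-step induction on `t` (`t = 0, 1` are hypotheses).  For `W`:
divide ` (T^[t+3] c) k = K^(2^(t+1)) r^(k 2^(t+1)) (T^[t+1] c) k` (`k ≥ k1 + t + 1`) by the square of the formula for
`T^[t+2] c`: `W (T^[t+2] c) k = W (T^[t] c) k` for `k ≥ k1 + t + 1`.  So `G (T^[t+2] c) k = G (T^[t] c) k` for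
`k ≥ k1 + t + 1`, and two-step induction. -/
def StTL : Prop :=
  ∀ (c : ℕ → ℝ) (r K : ℝ) (k1 : ℕ), c 0 = 0 → 0 < r → 0 < K → (∀ k, k1 ≤ k → 0 < c k) →
    (∀ k, k1 ≤ k → 0 < T c k) → (∀ k, k1 ≤ k → T (T c) k = K * r ^ k * c k) →
    (∀ t k, k1 + t ≤ k → 0 < (T^[t] c) k) ∧
      ∀ t k, k1 + t ≤ k → G (T^[t] c) k = G c k ∨ G (T^[t] c) k = G (T c) k

/-- THE KEY STEP.  PROOF. Suppose `c' (k1-1) ≠ c (k1-1)`.  `δ t = (T^[t] c) (k1-1+t) - (T^[t] c') (k1-1+t)`,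
`β t = (T^[t] c) (k1+t) > 0`, `g t = (T^[t] c) (k1+t+1) > 0`.  `T^[t] c` and `T^[t] c'` agree at the sites `≥ k1 + t`
(`T_local`), so `δ (t+1) = - δ t * g t` (`T_succ` at `k1 + t`), and both ` (T^[t+1] c) (k1+t)` and
` (T^[t+1] c') (k1+t)` are in `[0, β t ^2]`, so `|δ (t+1)| ≤ β t ^ 2`.  Put `σ t = |δ (t+1)| / β t ^ 2 ∈ (0, 1]`.
`σ (t+1) / σ t = g (t+1) β t ^ 2 / β (t+1) ^ 2 = G (T^[t] c) (k1+t+1)` (with `y = T^[t] c`, `n = k1+t+1`: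
`β t = y (n-1)`, `g t = y n`, `β (t+1) = T y n`, `g (t+1) = T y (n+1)`, `1 - W y n = y (n-1) y (n+1) / (y n)^2`).  This is
`G c (k1+t+1)` or `G (T c) (k1+t+1)`, so `≥ 2` for large `t`: `σ` is unbounded, contradiction. -/
def StUS : Prop :=
  ∀ (c c' : ℕ → ℝ) (k1 : ℕ), 1 ≤ k1 → Inf c → Inf c' → (∀ k, k1 ≤ k → c' k = c k) →
    (∀ t k, k1 + t ≤ k → 0 < (T^[t] c) k) →
    (∀ t k, k1 + t ≤ k → G (T^[t] c) k = G c k ∨ G (T^[t] c) k = G (T c) k) →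
    Tendsto (G c) atTop atTop → Tendsto (G (T c)) atTop atTop → c' (k1 - 1) = c (k1 - 1)

/-- RIGIDITY.  PROOF. (1) `T (T c) k = K r^k c k` for all `k ≥ 2`: downward induction on `k1` from `max N 2`: if it holds
for all `k ≥ k1`, `k1 ≥ 3`, then `T (T c) k > 0` there, and `T (T c) k ≤ (T c k)^2`, so `T c k > 0`; `StTL`, `StGL` and
`StUS` with `c' k = K⁻¹ (r⁻¹)^k T (T c) k` (`Inf c'`: `Inf_scale`, `Inf_iter`) give it at `k1 - 1`.  (2) Hence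
`T c k > 0` and `Th c k = K r^k` for `k ≥ 2` (`TT_eq`).  (3) `ka p q r c m = 0` for all `m`: downward induction: if
it holds for all `m ≥ M + 1` then `Th_step` at `k = M + 2` gives `ka p q r c M * T c (M + 3) = 0`. -/
def StRG : Prop :=
  ∀ (c : ℕ → ℝ) (p q r K : ℝ) (N : ℕ), c 0 = 0 → c 1 = 0 → Inf c → (∀ k, 2 ≤ k → 0 < c k) →
    (∀ m, N ≤ m → ka p q r c m = 0) → 0 < r → 0 < K → (∀ k, N ≤ k → T (T c) k = K * r ^ k * c k) →
    ∀ m, ka p q r c m = 0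

/-! ## The nondegenerate case -/

/-- Completeness.  PROOF. `StZP`.  First alternative (`n`): `ρ k = c (k+n)`, `Inf ρ` (`StSP`), `ρ k > 0` for `k ≥ 2`,
`ka p q r ρ m = 0` for `m ≥ N`, `Th ρ k = Th c (k+n) ≠ 0` for `k ≥ max N 2`.  `ρ k Th ρ k = T (T ρ) k ≥ 0`, so `Th ρ k > 0`;
`Th ρ (k+1) = r Th ρ k` for `k ≥ N + 2` (`Th_step`), so `r > 0` and `Th ρ k = K r^k` with `K > 0` for `k ≥ N + 2`;
`StRG`: `ka p q r ρ m = 0` for all `m`.  `StPF`: `T (T ρ) k > 0` for `k ≥ 2`, so `T ρ k > 0` (`T (T ρ) k ≤ (T ρ k)^2`);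
`StCV`.  Second alternative: take zero pairs `n ≥ N + 2` and `m ≥ n + 3`.  `c (n+2) ≠ 0`, otherwise `c k = 0` for all
`k ≥ n` by the recurrence and `Th c k = 0` for large `k`.  `Th c n = c (n+2) (c (n-1))^2`,
`Th c (n+1) = (c (n+2))^2 c (n-1)` and `Th c (n+1) = r Th c n` (`Th_step`, `ka p q r c (n-2) = 0`); both are nonzero,
so `c (n-1) > 0` and `r > 0`. -/
def StBC : Prop :=
  ∀ (c : ℕ → ℝ) (p q r : ℝ) (N : ℕ), c 0 = 0 → c 1 = 0 → Inf c → (∀ m, N ≤ m → ka p q r c m = 0) →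
    (∀ k, N ≤ k → Th c k ≠ 0) →
    ∃ n, c n = 0 ∧ c (n + 1) = 0 ∧ 0 < c (n + 2) ∧ (∀ m, n ≤ m → ka p q r c m = 0) ∧ 0 < r ∧
      ((0 < p ∧ q < 0 ∧ 0 ≤ dis p q r) ∨ ∃ m, n + 3 ≤ m ∧ c m = 0 ∧ c (m + 1) = 0)

/-- Soundness.  PROOF. By `StSP` it is enough that `ρ k = c (k+n)` has `Inf ρ`; `ρ 0 = ρ 1 = 0`, `ρ 2 > 0` and
`ka p q r ρ m = 0` for all `m`.  `StPF` and `StP2` with `la = (ρ 2)^3/r^2`, `mu = r`: it is enough that `ρ k ≥ 0` and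
`T ρ k ≥ 0` for all `k`.  Real roots: `StRR`, `StPS`.  Otherwise `m = n + j`, `j ≥ 3`, `ρ j = ρ (j+1) = 0`; with
`λ = ρ (j+2) / ρ 2 ≥ 0` the recurrence gives `ρ (j+k) = λ ρ k` for all `k`, so `T ρ (j+k) = λ^2 T ρ k` for `k ≥ 1`;
strong induction (`ρ k` and `T ρ k` are `≥ 0` for `k ≤ j + 2`; note ` (T ρ) k = (T c) (k+n)` for `k ≥ 1`, `T ρ 0 = 0`). -/
def StBS : Prop :=
  ∀ (c : ℕ → ℝ) (p q r : ℝ) (n : ℕ), c n = 0 → c (n + 1) = 0 → 0 < c (n + 2) →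
    (∀ m, n ≤ m → ka p q r c m = 0) → 0 < r → Inf (lb n c) →
    ((0 < p ∧ q < 0 ∧ 0 ≤ dis p q r) ∨ ∃ m, n + 3 ≤ m ∧ c m = 0 ∧ c (m + 1) = 0 ∧
      ∀ k, k ≤ m + 2 → 0 ≤ c k ∧ 0 ≤ T c k) → Inf c

/-! ## The degenerate case -/

/-- Completeness.  PROOF. `D = T c ≥ 0`; `T D k = c k Th c k = 0` for `k ≥ N + 2`, i.e. ` (D k)^2 = D (k-1) D (k+1)`.
So either `D k = 0` for all `k ≥ N + 2`, or `D k > 0` for all `k ≥ N + 2` (a zero `D k` with `k ≥ N + 2` forces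
`D (k+1) = 0` and, if `k - 1 ≥ N + 2`, `D (k-1) = 0`).
(1) `D k = 0` for `k ≥ N + 2`: ` (c k)^2 = c (k-1) c (k+1)`; again either `c k = 0` for all `k ≥ N + 2` (take
`P = Q = 0`, `n1 = N + 2`) or `c k > 0` for all `k ≥ N + 2` and then the ratio `ρ = c (k+1)/c k` is constant for
`k ≥ N + 2`: `P = ρ`, `Q = 0`, `n1 = N + 2`.
(2) `D k > 0` for `k ≥ N + 2`: `Q = D (k+1)/D k > 0` is constant for `k ≥ N + 2`; `c k > 0` since ` (c k)^2 ≥ D k > 0`;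
`c (k+2) = P c (k+1) - Q c k` for `k ≥ N + 2` with `P = (c (k+2) + Q c k)/c (k+1)` constant, because
`(c(k+3) + Q c(k+1)) c(k+1) - (c(k+2) + Q c k) c(k+2) = Q D(k+1) - D(k+2) = 0`.  `StOS` (cast to `ℝ`) for
`e n = c (n + N + 2)` (`e n e(n+2) < e(n+1)^2` is `D > 0`): `4 Q ≤ P^2`, `P > 0`, `P c n1 ≤ 2 c (n1 + 1)`,
`n1 = N + 2`. -/
def StAC : Prop :=
  ∀ (c : ℕ → ℚ) (N : ℕ), Inf c → (∀ k, N ≤ k → Th c k = 0) →
    ∃ (n1 : ℕ) (P Q : ℚ), 2 ≤ n1 ∧ 0 ≤ P ∧ 0 ≤ Q ∧ 4 * Q ≤ P ^ 2 ∧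
      (∀ i, n1 ≤ i → c (i + 2) = P * c (i + 1) - Q * c i) ∧ P * c n1 ≤ 2 * c (n1 + 1)

/-- Soundness.  PROOF. By induction for `i ≥ n1`: `c i ≥ 0` and `P c i ≤ 2 c (i+1)`: `2 c(i+2) = 2 P c(i+1) - 2 Q c i ≥
2 P c(i+1) - (P/2) (P c i) ≥ P c (i+1)`.  `D = T c`: `D (i+1) = Q D i` for `i ≥ n1 + 1` (ring identity using the
recurrence at `i - 1` and `i`), so `D k ≥ 0` for all `k`, and `T D k = 0` for `k ≥ n1 + 2`.  So `T (T c)` equals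
`fun k => if k ≤ n1 + 1 then T (T c) k else 0` and all its iterates are `≥ 0`. -/
def StAS : Prop :=
  ∀ (c : ℕ → ℝ) (n1 : ℕ) (P Q : ℝ), 0 ≤ P → 0 ≤ Q → 4 * Q ≤ P ^ 2 →
    (∀ i, n1 ≤ i → c (i + 2) = P * c (i + 1) - Q * c i) → P * c n1 ≤ 2 * c (n1 + 1) →
    (∀ k, k ≤ n1 + 1 → 0 ≤ c k ∧ 0 ≤ T c k) → Inf (lb (n1 + 1) (T (T c))) → Inf c

/-! ## The recurrence can be checked -/

/-- How far the recurrence has to be checked. -/
def Bd (x : Inp) : ℕ := 3 * (x.1.map List.length).sum + x.2.length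

/-- PROOF. `d = x.2.length`, `D = (x.1.map List.length).sum`.  Let `b : ℕ → ℚ` with `b i = a (N + i)` for `i < 3` and
`ka p q r b m = 0` for all `m`; by the hypothesis `b i = a (N + i)` for `i < 3 D + d + 3`.  Let
`s i = ∑_(j ≤ d) ev p_j (N + i) b (i + j)`; `s i = 0` for `i < 3 D` (recurrence of `a`).  Let `E` be the operator
`ka p q r` on sequences.  `E^[D] s = 0`: if `s i = ∑_(j ∈ J) f_j (i) b (i+j)` with polynomials `f_j` of degree `< D`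
(or `f_j = 0` if `D = 0`), then `E s` is of the same form with degree `< D - 1`, because
`f (i+3) b (i+3) - p f (i+2) b (i+2) - q f (i+1) b (i+1) - r f i b i = (f (i+3) - f i) b (i+3) -
p (f (i+2) - f i) b (i+2) - q (f (i+1) - f i) b (i+1)` (`ka p q r b i = 0`).  If `E u = 0` and `u` vanishes at three
consecutive indices then at all later ones; apply this to `u = E^[D-1] s, ..., E s, s` (`E^[k] s` vanishes at
`i < 3 (D - k)`): `s = 0`.  Hence `a (N + i) = b i` for all `i` by strong induction (`p_d (n) ≠ 0`). -/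
def StRC : Prop :=
  ∀ (x : Inp) (a : ℕ → ℚ), Std x → Sol x a → ∀ (p q r : ℚ) (N : ℕ),
    (∀ m, N ≤ m → m < N + Bd x → ka p q r a m = 0) → ∀ m, N ≤ m → ka p q r a m = 0

/-! ## The decision procedure -/

/-- The shifted sequence. -/
def sh (a : ℕ → ℚ) (k : ℕ) : ℚ := if k < 2 then 0 else a (k - 2)

/-- Transfer.  PROOF. By induction ` (T^[t] (sh a)) (k + 2) = (LC^[t] a) k` and ` (T^[t] (sh a)) 0 =
(T^[t] (sh a)) 1 = 0` (`T_pair`). -/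
def StTR : Prop := ∀ a : ℕ → ℚ, Inf (sh a) ↔ InfLC a

/-- A certificate for a finite list (project DF). -/
def Cok (L : List ℤ) (t : ℕ) (c : Cert) : Prop := chk (TL^[t] L) c ∧ NN t L

/-- PROOF. First part: `StSND` for the iterates from `t` on, `NN` for the earlier ones (see `hFIN` in
`Helper90/DF/M_FIN.lean`).  Second part: `StCMP`; `NN` from `Inf`. -/
def StCK : Prop :=
  (∀ L t c, Cok L t c → Inf (sq L)) ∧ (∀ L, sq L 0 = 0 → Inf (sq L) → ∃ t c, Cok L t c)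

/-- Coefficients ` ((e3, e2), (e1, e0))`. -/
abbrev Co : Type := (ℤ × ℤ) × (ℤ × ℤ)

/-- The recurrence `e3 s (j+3) = e2 s (j+2) + e1 s (j+1) + e0 s j` at the indices `n ≤ j < n + B + 2`. -/
def okR (L : List ℤ) (e : Co) (n B : ℕ) : Prop :=
  n + B + 5 ≤ L.length ∧ ∀ i ∈ List.range (B + 2),
    e.1.1 * sq L (n + i + 3) = e.1.2 * sq L (n + i + 2) + e.2.1 * sq L (n + i + 1) + e.2.2 * sq L (n + i)

/-- The discriminant times `e3^4`. -/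
def dz (e : Co) : ℤ :=
  e.1.2 ^ 2 * e.2.1 ^ 2 + 4 * e.2.1 ^ 3 * e.1.1 - 4 * e.1.2 ^ 3 * e.2.2 -
    18 * e.1.2 * e.2.1 * e.2.2 * e.1.1 - 27 * e.2.2 ^ 2 * e.1.1 ^ 2

/-- Nondegenerate certificate. -/
def okB (L : List ℤ) (e : Co) (n m t : ℕ) (c : Cert) : Prop :=
  (sq L n = 0 ∧ sq L (n + 1) = 0 ∧ 0 < sq L (n + 2) ∧ 0 < e.1.1 ∧ 0 < e.2.2) ∧
    Cok (L.take (n + 1)) t c ∧
    ((0 < e.1.2 ∧ e.2.1 < 0 ∧ 0 ≤ dz e) ∨
      ((n + 3 ≤ m ∧ m + 3 < L.length ∧ sq L m = 0 ∧ sq L (m + 1) = 0) ∧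
        ∀ k ∈ List.range (m + 3), 0 ≤ sq L k ∧ 0 ≤ sq (TL L) k))

/-- Degenerate certificate (`n1 = n + 1`). -/
def okA (L : List ℤ) (e : Co) (n t : ℕ) (c : Cert) : Prop :=
  (0 < e.1.1 ∧ 0 ≤ e.1.2 ∧ e.2.1 ≤ 0 ∧ e.2.2 = 0 ∧ 0 ≤ e.1.2 ^ 2 + 4 * e.2.1 * e.1.1) ∧
    Cok ((TL (TL L)).take (n + 3)) t c ∧
    (e.1.2 * sq L (n + 1) ≤ 2 * e.1.1 * sq L (n + 2)) ∧
      ∀ k ∈ List.range (n + 3), 0 ≤ sq L k ∧ 0 ≤ sq (TL L) k

/-- SOUNDNESS.  PROOF. `p = e2/e3`, `q = e1/e3`, `r = e0/e3` in `ℚ`.  `StVER` (first part): `sq l (k+1) = w a k` for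
`k + 1 < l.length`, so `sq (0 :: l) k = w * sh a k` for `k ≤ l.length`.  `okR` (divide by `w e3`) gives
`ka p q r (sh a) j = 0` for `n ≤ j < n + Bd x + 2`; since `sh a (j+2) = a j`, `StRC` (with `N = n - 2`) gives
`ka p q r a m = 0` for `m ≥ n - 2`, so `ka p q r (sh a) j = 0` for all `j ≥ n` (the indices `j < 2` directly from
`okR`).  `okB`: `StBS` for `c = sh a` cast to `ℝ`: `dis p q r = dz e / e3^4`; `Inf (lb n c)`: `sq (L.take (n+1))` is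
`w * lb n (sh a)` (`StCK`, cast, `Inf_scale` with `la = 1/w`, `mu = 1`); ` (T c) k = sq (TL L) k / w^2` for
`k + 1 < L.length` (`sq_TL`).  `okA`: `StAS` with `n1 = n + 1`, `P = p`, `Q = -q`: `ka p q 0 c j = 0` for `j ≥ n` is
`c (i+2) = P c (i+1) - Q c i` for `i ≥ n + 1`; `sq ((TL (TL L)).take (n+3)) = w^4 * lb (n+2) (T (T c))` because
`n + 4 < L.length`.  Finally `StTR`, `Inf_cast`. -/
def StFS : Prop :=
  ∀ (x : Inp) (a : ℕ → ℚ), Std x → Sol x a → ∀ (w : ℕ) (l : List ℤ) (e : Co) (n m t : ℕ) (c : Cert),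
    ver x w l → okR (0 :: l) e n (Bd x) → 0 < e.1.1 → (okB (0 :: l) e n m t c ∨ okA (0 :: l) e n t c) →
    InfLC a

/-- COMPLETENESS.  PROOF. `c = sh a`, `Inf c` (`StTR`), `ka p q r c m = 0` for `m ≥ N + 2`.
`Th c (k+1) = r Th c k` for `k ≥ N + 4` (`Th_step`): either `Th c k ≠ 0` for all `k ≥ N + 4`... or `Th c k = 0` for all
large `k`.  First case: `StBC` for `c` cast to `ℝ` (coefficients `p, q, r` cast) gives `n` (and `m`); choose a common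
denominator `e3 > 0` of `p, q, r`, `e2 = p e3` etc.; choose `w, l` by `StVER` with `l` longer than `n + m + Bd x + 10`;
`okR`, `okB` by multiplying with `w`, `w e3`, `dz e = e3^4 dis p q r`; `Cok` by `StCK` (`sq (L.take (n+1))` is
`w * lb n c`, `Inf` by `StSP`, cast back to `ℤ`).  Second case: `StAC` gives `n1 ≥ 2`, `P, Q`; `n = n1 - 1`,
`e2/e3 = P`, `e1/e3 = -Q`, `e0 = 0`; `sq ((TL (TL L)).take (n+3)) = w^4 * lb (n+2) (T (T c)) = w^4 T (T c)` since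
`T (T c) k = 0` for `k ≥ n1 + 2` (`D (i+1) = Q D i` for `i ≥ n1 + 1`, `D = T c`), which is `Inf` by `Inf_iter`. -/
def StFC : Prop :=
  ∀ (x : Inp) (a : ℕ → ℚ), Std x → Sol x a → InfLC a →
    (∃ (N : ℕ) (p q r : ℚ), ∀ n, N ≤ n → a (n + 3) = p * a (n + 2) + q * a (n + 1) + r * a n) →
    ∃ (w : ℕ) (l : List ℤ) (e : Co) (n m t : ℕ) (c : Cert),
      ver x w l ∧ okR (0 :: l) e n (Bd x) ∧ 0 < e.1.1 ∧
        (okB (0 :: l) e n m t c ∨ okA (0 :: l) e n t c)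

/-- The checks are primitive recursive.  PROOF. See `pr_NN`, `pr_posi` in `Helper90/DF/M_FIN.lean` (and
`Helper4/IL/IntPrim.lean`); `L.take n` via `List.range`/`getD` or `Primrec` for `List.take` by `list_foldl`. -/
def StPO : Prop :=
  PrimrecPred (fun q : List ℤ × (Co × (ℕ × ℕ)) => okR q.1 q.2.1 q.2.2.1 q.2.2.2) ∧
  PrimrecPred (fun q : List ℤ × (Co × ((ℕ × ℕ) × (ℕ × Cert))) =>
    okB q.1 q.2.1 q.2.2.1.1 q.2.2.1.2 q.2.2.2.1 q.2.2.2.2) ∧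
  PrimrecPred (fun q : List ℤ × (Co × (ℕ × (ℕ × Cert))) => okA q.1 q.2.1 q.2.2.1 q.2.2.2.1 q.2.2.2.2) ∧
  Primrec Bd

/-- THE THEOREM.  PROOF. As `hFIN` in `Helper90/DF/M_FIN.lean` (same `neg`, new `posi`). -/
def StO3 : Prop :=
  ∃ g : Inp →. Bool, Partrec g ∧ ∀ x : Inp, Std x → ∀ a : ℕ → ℚ, Sol x a →
    (∀ β ∈ g x, (β = true ↔ InfLC a)) ∧
    ((∃ (N : ℕ) (p q r : ℚ), ∀ n, N ≤ n → a (n + 3) = p * a (n + 2) + q * a (n + 1) + r * a n) →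
      (g x).Dom) ∧ (¬ InfLC a → (g x).Dom)

end Pool.Agent.Helper6.O3
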